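import Mathlib

/-!
# Monotone 3-graphs on an ordered vertex set: definitions and reductions
-/

set_option autoImplicit false
open Finset

namespace Pool.Agent.H86.MT

/-- `E` is a 3-graph on the vertices `0, ..., n - 1`: a finite set of triples `a < b < c < n` (every
edge is written in increasing order). -/
def IsGraph (n : ℕ) (E : Finset (ℕ × ℕ × ℕ)) : Prop :=
  ∀ a b c : ℕ, (a, b, c) ∈ E → a < b ∧ b < c ∧ c < n

/-- no four vertices span four edges -/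
def K4Free (E : Finset (ℕ × ℕ × ℕ)) : Prop :=
  ∀ a b c d : ℕ, (a, b, c) ∈ E → (a, b, d) ∈ E → (a, c, d) ∈ E → (b, c, d) ∉ E

/-- `t'` is obtained from `t` by a move in the direction of the sign (no move for the sign `0`) -/
def Dir (s : SignType) (t t' : ℕ) : Prop :=
  match s with
  | SignType.pos => t < t'
  | SignType.neg => t' < t
  | SignType.zero => False

/-- An edge `a < b < c` remains an edge when one of its vertices is moved, within `0, ..., n - 1` and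
without changing the order of the three vertices, in the direction of its sign: the smallest vertex
has the sign `x`, the middle one `y` and the largest one `z`. -/
def Mono (n : ℕ) (x y z : SignType) (E : Finset (ℕ × ℕ × ℕ)) : Prop :=
  (∀ a b c a' : ℕ, (a, b, c) ∈ E → a' < b → Dir x a a' → (a', b, c) ∈ E) ∧
  (∀ a b c b' : ℕ, (a, b, c) ∈ E → a < b' → b' < c → Dir y b b' → (a, b', c) ∈ E) ∧
  (∀ a b c c' : ℕ, (a, b, c) ∈ E → b < c' → c' < n → Dir z c c' → (a, b, c') ∈ E)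

/-- the asymptotic density is at most `v` -/
def Upper (x y z : SignType) (v : ℝ) : Prop :=
  ∀ ε : ℝ, 0 < ε → ∃ n₀ : ℕ, ∀ n : ℕ, n₀ ≤ n → ∀ E : Finset (ℕ × ℕ × ℕ), IsGraph n E →
    K4Free E → Mono n x y z E → (E.card : ℝ) ≤ (v + ε) * n.choose 3

/-- the asymptotic density is at least `v` -/
def Lower (x y z : SignType) (v : ℝ) : Prop :=
  ∀ ε : ℝ, 0 < ε → ∃ n₀ : ℕ, ∀ n : ℕ, n₀ ≤ n → ∃ E : Finset (ℕ × ℕ × ℕ), IsGraph n E ∧
    K4Free E ∧ Mono n x y z E ∧ (v - ε) * n.choose 3 ≤ (E.card : ℝ)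

/-- `u` is the sign `0` or equal to `s` -/
def Weaker (u s : SignType) : Prop := u = 0 ∨ u = s

theorem Dir.of_weaker {u s : SignType} (h : Weaker u s) {t t' : ℕ} (hd : Dir u t t') :
    Dir s t t' := by
  rcases h with h | h
  · subst h
    exact absurd hd id
  · rwa [← h]

theorem Mono.weaken {n : ℕ} {x y z x' y' z' : SignType} {E : Finset (ℕ × ℕ × ℕ)}
    (h : Mono n x y z E) (hx : Weaker x' x) (hy : Weaker y' y) (hz : Weaker z' z) :
    Mono n x' y' z' E :=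
  ⟨fun a b c a' h1 h2 h3 => h.1 a b c a' h1 h2 (h3.of_weaker hx),
    fun a b c b' h1 h2 h3 h4 => h.2.1 a b c b' h1 h2 h3 (h4.of_weaker hy),
    fun a b c c' h1 h2 h3 h4 => h.2.2 a b c c' h1 h2 h3 (h4.of_weaker hz)⟩

theorem Upper.mono {x y z x' y' z' : SignType} {v : ℝ} (h : Upper x' y' z' v)
    (hx : Weaker x' x) (hy : Weaker y' y) (hz : Weaker z' z) : Upper x y z v := by
  intro ε hε
  obtain ⟨n₀, h0⟩ := h ε hε
  exact ⟨n₀, fun n hn E h1 h2 h3 => h0 n hn E h1 h2 (h3.weaken hx hy hz)⟩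

theorem Lower.mono {x y z x' y' z' : SignType} {v : ℝ} (h : Lower x y z v)
    (hx : Weaker x' x) (hy : Weaker y' y) (hz : Weaker z' z) : Lower x' y' z' v := by
  intro ε hε
  obtain ⟨n₀, h0⟩ := h ε hε
  refine ⟨n₀, fun n hn => ?_⟩
  obtain ⟨E, h1, h2, h3, h4⟩ := h0 n hn
  exact ⟨E, h1, h2, h3.weaken hx hy hz, h4⟩

/-! ### Reversing the order -/

/-- the reversed triple -/
def rt (n : ℕ) (t : ℕ × ℕ × ℕ) : ℕ × ℕ × ℕ := (n - 1 - t.2.2, n - 1 - t.2.1, n - 1 - t.1)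

/-- the reversed 3-graph -/
def rev (n : ℕ) (E : Finset (ℕ × ℕ × ℕ)) : Finset (ℕ × ℕ × ℕ) := E.image (rt n)

theorem mem_rev {n : ℕ} {E : Finset (ℕ × ℕ × ℕ)} (hE : IsGraph n E) {a b c : ℕ} (hab : a < b)
    (hbc : b < c) (hc : c < n) :
    (a, b, c) ∈ rev n E ↔ (n - 1 - c, n - 1 - b, n - 1 - a) ∈ E := by
  unfold rev
  rw [mem_image]
  constructor
  · rintro ⟨⟨x, y, z⟩, h, he⟩
    obtain ⟨h1, h2, h3⟩ := hE _ _ _ h
    simp only [rt, Prod.mk.injEq] at he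
    obtain ⟨e1, e2, e3⟩ := he
    have : n - 1 - c = x := by omega
    have : n - 1 - b = y := by omega
    have : n - 1 - a = z := by omega
    simp_all
  · intro h
    refine ⟨_, h, ?_⟩
    simp only [rt, Prod.mk.injEq]
    omega

theorem isGraph_rev {n : ℕ} {E : Finset (ℕ × ℕ × ℕ)} (hE : IsGraph n E) :
    IsGraph n (rev n E) := by
  intro a b c h
  unfold rev at h
  rw [mem_image] at h
  obtain ⟨⟨x, y, z⟩, h, he⟩ := h
  obtain ⟨h1, h2, h3⟩ := hE _ _ _ h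
  simp only [rt, Prod.mk.injEq] at he
  omega

theorem k4Free_rev {n : ℕ} {E : Finset (ℕ × ℕ × ℕ)} (hE : IsGraph n E) (hK : K4Free E) :
    K4Free (rev n E) := by
  intro a b c d h1 h2 h3 h4
  have g1 := isGraph_rev hE _ _ _ h1
  have g4 := isGraph_rev hE _ _ _ h4
  rw [mem_rev hE (by omega) (by omega) (by omega)] at h1 h2 h3 h4
  exact hK _ _ _ _ h4 h3 h2 h1

theorem card_rev {n : ℕ} {E : Finset (ℕ × ℕ × ℕ)} (hE : IsGraph n E) :
    (rev n E).card = E.card := by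
  unfold rev
  apply card_image_of_injOn
  rintro ⟨a, b, c⟩ h ⟨a', b', c'⟩ h' he
  obtain ⟨h1, h2, h3⟩ := hE _ _ _ (mem_coe.1 h)
  obtain ⟨h1', h2', h3'⟩ := hE _ _ _ (mem_coe.1 h')
  simp only [rt, Prod.mk.injEq] at he ⊢
  omega

theorem dir_rev {n : ℕ} {s : SignType} {t t' : ℕ} (ht : t < n) (ht' : t' < n)
    (h : Dir (-s) (n - 1 - t) (n - 1 - t')) : Dir s t t' := by
  cases s
  · exact absurd h id
  · change n - 1 - t < n - 1 - t' at h
    change t' < t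
    omega
  · change n - 1 - t' < n - 1 - t at h
    change t < t'
    omega

theorem dir_rev' {n : ℕ} {s : SignType} {t t' : ℕ} (ht : t < n) (ht' : t' < n)
    (h : Dir s t t') : Dir (-s) (n - 1 - t) (n - 1 - t') := by
  cases s
  · exact absurd h id
  · change t' < t at h
    change n - 1 - t < n - 1 - t'
    omega
  · change t < t' at h
    change n - 1 - t' < n - 1 - t
    omega

theorem mono_rev {n : ℕ} {x y z : SignType} {E : Finset (ℕ × ℕ × ℕ)} (hE : IsGraph n E)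
    (h : Mono n x y z E) : Mono n (-z) (-y) (-x) (rev n E) := by
  refine ⟨fun a b c a' h1 h2 h3 => ?_, fun a b c b' h1 h2 h3 h4 => ?_,
    fun a b c c' h1 h2 h3 h4 => ?_⟩
  · obtain ⟨g1, g2, g3⟩ := isGraph_rev hE _ _ _ h1
    rw [mem_rev hE (by omega) (by omega) (by omega)] at h1 ⊢
    refine h.2.2 _ _ _ _ h1 (by omega) (by omega) ?_
    have := dir_rev' (n := n) (by omega) (by omega) h3
    rwa [neg_neg] at this
  · obtain ⟨g1, g2, g3⟩ := isGraph_rev hE _ _ _ h1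
    rw [mem_rev hE (by omega) (by omega) (by omega)] at h1 ⊢
    refine h.2.1 _ _ _ _ h1 (by omega) (by omega) ?_
    have := dir_rev' (n := n) (by omega) (by omega) h4
    rwa [neg_neg] at this
  · obtain ⟨g1, g2, g3⟩ := isGraph_rev hE _ _ _ h1
    rw [mem_rev hE (by omega) (by omega) (by omega)] at h1 ⊢
    refine h.1 _ _ _ _ h1 (by omega) ?_
    have := dir_rev' (n := n) (by omega) (by omega) h4
    rwa [neg_neg] at this

theorem Upper.rev {x y z : SignType} {v : ℝ} (h : Upper x y z v) : Upper (-z) (-y) (-x) v := by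
  intro ε hε
  obtain ⟨n₀, h0⟩ := h ε hε
  refine ⟨n₀, fun n hn E h1 h2 h3 => ?_⟩
  have := h0 n hn (MT.rev n E) (isGraph_rev h1) (k4Free_rev h1 h2)
    (by have := mono_rev h1 h3; rwa [neg_neg, neg_neg, neg_neg] at this)
  rwa [card_rev h1] at this

theorem Lower.rev {x y z : SignType} {v : ℝ} (h : Lower x y z v) : Lower (-z) (-y) (-x) v := by
  intro ε hε
  obtain ⟨n₀, h0⟩ := h ε hε
  refine ⟨n₀, fun n hn => ?_⟩
  obtain ⟨E, h1, h2, h3, h4⟩ := h0 n hn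
  exact ⟨MT.rev n E, isGraph_rev h1, k4Free_rev h1 h2, mono_rev h1 h3, by rwa [card_rev h1]⟩

/-! ### Cubic bounds -/

theorem choose_three (n : ℕ) : (6 : ℝ) * (n.choose 3 : ℝ) = n * (n - 1) * (n - 2) := by
  rcases Nat.lt_or_ge n 2 with h | h
  · interval_cases n <;> norm_num [Nat.choose]
  · obtain ⟨k, rfl⟩ : ∃ k, n = k + 2 := ⟨n - 2, by omega⟩
    have h1 := Nat.add_one_mul_choose_eq (k + 1) 2
    have h2 := Nat.add_one_mul_choose_eq k 1
    have e1 : (k + 1).choose 1 = k + 1 := Nat.choose_one_right _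
    rw [Nat.choose_one_right] at h2
    have h1' : ((k : ℝ) + 2) * ((k + 1).choose 2 : ℝ) = ((k + 2).choose 3 : ℝ) * 3 := by
      exact_mod_cast h1
    have h2' : ((k : ℝ) + 1) * (k : ℝ) = ((k + 1).choose 2 : ℝ) * 2 := by
      exact_mod_cast h2
    push_cast
    nlinarith

theorem choose_le (n : ℕ) : (n.choose 3 : ℝ) ≤ (n : ℝ) ^ 3 / 6 := by
  have := choose_three n
  rcases Nat.lt_or_ge n 1 with h | h
  · interval_cases n
    simp
  · have h1 : (1 : ℝ) ≤ n := by exact_mod_cast h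
    nlinarith

theorem le_choose (n : ℕ) : (n : ℝ) ^ 3 / 6 - (n : ℝ) ^ 2 / 2 ≤ (n.choose 3 : ℝ) := by
  have := choose_three n
  have : (0 : ℝ) ≤ n := Nat.cast_nonneg n
  nlinarith

theorem upper_of {x y z : SignType} {v : ℝ} (hv : 0 ≤ v)
    (h : ∀ ε : ℝ, 0 < ε → ∃ C : ℝ, ∀ (n : ℕ) (E : Finset (ℕ × ℕ × ℕ)), IsGraph n E →
      K4Free E → Mono n x y z E → (E.card : ℝ) ≤ (v / 6 + ε) * (n : ℝ) ^ 3 + C * (n : ℝ) ^ 2) :
    Upper x y z v := by
  intro ε hε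
  obtain ⟨C, hC⟩ := h (ε / 12) (by positivity)
  obtain ⟨n₀, hn₀⟩ := exists_nat_ge (12 * (|C| + (v + ε) / 2) / ε)
  refine ⟨n₀, fun n hn E h1 h2 h3 => ?_⟩
  refine le_trans (hC n E h1 h2 h3) ?_
  have hn' : 12 * (|C| + (v + ε) / 2) / ε ≤ (n : ℝ) := le_trans hn₀ (by exact_mod_cast hn)
  rw [div_le_iff₀ hε] at hn'
  have h4 := le_choose n
  have h5 : (v + ε) * ((n : ℝ) ^ 3 / 6 - (n : ℝ) ^ 2 / 2) ≤ (v + ε) * (n.choose 3 : ℝ) :=
    mul_le_mul_of_nonneg_left h4 (by linarith)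
  refine le_trans ?_ h5
  have h6 : C * (n : ℝ) ^ 2 ≤ |C| * (n : ℝ) ^ 2 :=
    mul_le_mul_of_nonneg_right (le_abs_self C) (by positivity)
  have h7 : 12 * (|C| + (v + ε) / 2) * (n : ℝ) ^ 2 ≤ (n : ℝ) * ε * (n : ℝ) ^ 2 :=
    mul_le_mul_of_nonneg_right hn' (by positivity)
  nlinarith

theorem lower_of {x y z : SignType} {v : ℝ}
    (h : ∃ C : ℝ, ∀ n : ℕ, ∃ E : Finset (ℕ × ℕ × ℕ), IsGraph n E ∧
      K4Free E ∧ Mono n x y z E ∧ v / 6 * (n : ℝ) ^ 3 - C * (n : ℝ) ^ 2 ≤ (E.card : ℝ)) :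
    Lower x y z v := by
  intro ε hε
  obtain ⟨C, hC⟩ := h
  obtain ⟨n₀, hn₀⟩ := exists_nat_ge (6 * |C| / ε)
  refine ⟨n₀, fun n hn => ?_⟩
  obtain ⟨E, h1, h2, h3, h4⟩ := hC n
  refine ⟨E, h1, h2, h3, ?_⟩
  have hn' : 6 * |C| / ε ≤ (n : ℝ) := le_trans hn₀ (by exact_mod_cast hn)
  rw [div_le_iff₀ hε] at hn'
  rcases le_or_gt (v - ε) 0 with hv | hv
  · have h5 : (v - ε) * (n.choose 3 : ℝ) ≤ 0 :=
      mul_nonpos_of_nonpos_of_nonneg hv (Nat.cast_nonneg _)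
    exact le_trans h5 (Nat.cast_nonneg _)
  · refine le_trans ?_ h4
    have h5 : (v - ε) * (n.choose 3 : ℝ) ≤ (v - ε) * ((n : ℝ) ^ 3 / 6) :=
      mul_le_mul_of_nonneg_left (choose_le n) hv.le
    have h6 : C * (n : ℝ) ^ 2 ≤ |C| * (n : ℝ) ^ 2 :=
      mul_le_mul_of_nonneg_right (le_abs_self C) (by positivity)
    have h7 : 6 * |C| * (n : ℝ) ^ 2 ≤ (n : ℝ) * ε * (n : ℝ) ^ 2 :=
      mul_le_mul_of_nonneg_right hn' (by positivity)
    nlinarith

end Pool.Agent.H86.MT
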