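import Pool.Agent.H86.MT.U6

/-!
# Monotone 3-graphs: lower bounds
-/

set_option autoImplicit false
open Finset

namespace Pool.Agent.H86.MT

open scoped Classical in
/-- the triples `a < b < c < n` with a property -/
noncomputable def EE (n : ℕ) (p : ℕ → ℕ → ℕ → Prop) : Finset (ℕ × ℕ × ℕ) :=
  (range n ×ˢ (range n ×ˢ range n)).filter
    (fun t => t.1 < t.2.1 ∧ t.2.1 < t.2.2 ∧ p t.1 t.2.1 t.2.2)

theorem mem_EE (n : ℕ) (p : ℕ → ℕ → ℕ → Prop) (a b c : ℕ) :
    (a, b, c) ∈ EE n p ↔ a < b ∧ b < c ∧ c < n ∧ p a b c := by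
  classical
  unfold EE
  rw [mem_filter, mem_product, mem_product, mem_range, mem_range, mem_range]
  simp only
  constructor
  · rintro ⟨⟨h1, h2, h3⟩, h4, h5, h6⟩
    exact ⟨h4, h5, h3, h6⟩
  · rintro ⟨h1, h2, h3, h4⟩
    exact ⟨⟨by omega, by omega, h3⟩, h1, h2, h4⟩

theorem isGraph_EE (n : ℕ) (p : ℕ → ℕ → ℕ → Prop) : IsGraph n (EE n p) := by
  intro a b c h
  rw [mem_EE] at h
  exact ⟨h.1, h.2.1, h.2.2.1⟩

theorem sum_id' (n : ℕ) : ∑ b ∈ range n, (b : ℝ) = n * (n - 1) / 2 := by
  induction n with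
  | zero => simp
  | succ n ih =>
    rw [sum_range_succ, ih]
    push_cast
    ring

theorem sum_sq' (n : ℕ) : ∑ b ∈ range n, (b : ℝ) ^ 2 = n * (n - 1) * (2 * n - 1) / 6 := by
  induction n with
  | zero => simp
  | succ n ih =>
    rw [sum_range_succ, ih]
    push_cast
    ring

/-- value `0` -/
theorem l0 (x y z : SignType) : Lower x y z 0 := by
  refine lower_of ⟨0, fun n => ⟨∅, ?_, ?_, ?_, ?_⟩⟩
  · intro a b c h
    simp at h
  · intro a b c d h1 h2 h3 h4
    simp at h1
  · refine ⟨fun a b c a' h1 h2 h3 => ?_, fun a b c b' h1 h2 h3 h4 => ?_,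
      fun a b c c' h1 h2 h3 h4 => ?_⟩ <;> simp at h1
  · simp

/-- signs `0, 0, -` -/
theorem l2 : Lower 0 0 SignType.neg (1 / 2) := by
  refine lower_of ⟨1, fun n => ⟨EE n (fun a b _ => (a + b) % 2 = 1), isGraph_EE _ _, ?_, ?_, ?_⟩⟩
  · intro a b c d h1 h2 h3 h4
    rw [mem_EE] at h1 h2 h3 h4
    omega
  · refine ⟨fun a b c a' h1 h2 h3 => absurd h3 id, fun a b c b' h1 h2 h3 h4 => absurd h4 id,
      fun a b c c' h1 h2 h3 h4 => ?_⟩
    rw [mem_EE] at h1 ⊢
    exact ⟨h1.1, h2, h3, h1.2.2.2⟩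
  · set P : Finset (Σ _ : ℕ, ℕ × ℕ) :=
      (range n).sigma (fun b => range ((b + 1) / 2) ×ˢ Ico (b + 1) n) with hP
    have h1 : P.card ≤ (EE n (fun a b _ => (a + b) % 2 = 1)).card := by
      apply card_le_card_of_injOn (fun p => (2 * p.2.1 + (p.1 + 1) % 2, p.1, p.2.2))
      · rintro ⟨b, k, c⟩ h
        rw [mem_coe, hP, mem_sigma, mem_product, mem_range, mem_range, mem_Ico] at h
        simp only at h
        rw [mem_coe, mem_EE]
        simp only
        omega
      · rintro ⟨b, k, c⟩ _ ⟨b', k', c'⟩ _ he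
        simp only [Prod.mk.injEq] at he
        obtain ⟨e1, rfl, rfl⟩ := he
        have : k = k' := by omega
        rw [this]
    have h2 : ((P.card : ℕ) : ℝ) = ∑ b ∈ range n, ((((b + 1) / 2 : ℕ)) : ℝ) * (n - 1 - b) := by
      rw [hP, card_sigma]
      push_cast
      refine sum_congr rfl fun b hb => ?_
      rw [mem_range] at hb
      rw [card_product, card_range, Nat.card_Ico, Nat.cast_mul, Nat.cast_sub (by omega)]
      push_cast
      ring
    have h3 : ∑ b ∈ range n, ((b : ℝ) / 2) * (n - 1 - b) ≤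
        ∑ b ∈ range n, ((((b + 1) / 2 : ℕ)) : ℝ) * (n - 1 - b) := by
      refine sum_le_sum fun b hb => ?_
      rw [mem_range] at hb
      apply mul_le_mul_of_nonneg_right
      · have : b ≤ 2 * ((b + 1) / 2) := by omega
        have : (b : ℝ) ≤ 2 * (((b + 1) / 2 : ℕ) : ℝ) := by exact_mod_cast this
        linarith
      · have : ((b + 1 : ℕ) : ℝ) ≤ n := by exact_mod_cast hb
        push_cast at this
        linarith
    have h4 : ∑ b ∈ range n, ((b : ℝ) / 2) * (n - 1 - b) =
        ((n : ℝ) - 1) / 2 * ∑ b ∈ range n, (b : ℝ) - 1 / 2 * ∑ b ∈ range n, (b : ℝ) ^ 2 := by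
      rw [mul_sum, mul_sum, ← sum_sub_distrib]
      refine sum_congr rfl fun b _ => ?_
      ring
    have h5 : (P.card : ℝ) ≤ ((EE n (fun a b _ => (a + b) % 2 = 1)).card : ℝ) := by
      exact_mod_cast h1
    refine le_trans ?_ h5
    rw [h2]
    refine le_trans ?_ h3
    rw [h4, sum_id', sum_sq']
    have : (0 : ℝ) ≤ n := Nat.cast_nonneg n
    nlinarith [sq_nonneg (n : ℝ)]

/-- signs `-, +, 0` -/
theorem l3 : Lower SignType.neg SignType.pos 0 (1 / 2) := by
  refine lower_of ⟨1, fun n => ⟨EE n (fun a b c => 2 * a < c ∧ c ≤ 2 * b), isGraph_EE _ _,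
    ?_, ?_, ?_⟩⟩
  · intro a b c d h1 h2 h3 h4
    rw [mem_EE] at h1 h2 h3 h4
    omega
  · refine ⟨fun a b c a' h1 h2 h3 => ?_, fun a b c b' h1 h2 h3 h4 => ?_,
      fun a b c c' h1 h2 h3 h4 => absurd h4 id⟩
    · change a' < a at h3
      rw [mem_EE] at h1 ⊢
      omega
    · change b < b' at h4
      rw [mem_EE] at h1 ⊢
      omega
  · set P : Finset (Σ _ : ℕ, ℕ × ℕ) :=
      (range n).sigma (fun c => range ((c + 1) / 2) ×ˢ Ico ((c + 1) / 2) c) with hP
    have h1 : P.card ≤ (EE n (fun a b c => 2 * a < c ∧ c ≤ 2 * b)).card := by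
      apply card_le_card_of_injOn (fun p => (p.2.1, p.2.2, p.1))
      · rintro ⟨c, a, b⟩ h
        rw [mem_coe, hP, mem_sigma, mem_product, mem_range, mem_range, mem_Ico] at h
        simp only at h
        rw [mem_coe, mem_EE]
        simp only
        omega
      · rintro ⟨c, a, b⟩ _ ⟨c', a', b'⟩ _ he
        simp only [Prod.mk.injEq] at he
        obtain ⟨rfl, rfl, rfl⟩ := he
        rfl
    have h2 : ∑ c ∈ range n, (1 / 4 * (c : ℝ) ^ 2 - 1 / 4) ≤ ((P.card : ℕ) : ℝ) := by
      rw [hP, card_sigma]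
      push_cast
      refine sum_le_sum fun c _ => ?_
      rw [card_product, card_range, Nat.card_Ico]
      have h3 : c ^ 2 ≤ 4 * (((c + 1) / 2) * (c - (c + 1) / 2)) + 1 := by
        rcases Nat.even_or_odd' c with ⟨q, h | h⟩
        · have e1 : (c + 1) / 2 = q := by omega
          have e2 : c - q = q := by omega
          rw [e1, e2, h]
          nlinarith
        · have e1 : (c + 1) / 2 = q + 1 := by omega
          have e2 : c - (q + 1) = q := by omega
          rw [e1, e2, h]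
          nlinarith
      have h4 : ((c ^ 2 : ℕ) : ℝ) ≤ ((4 * (((c + 1) / 2) * (c - (c + 1) / 2)) + 1 : ℕ) : ℝ) := by
        exact_mod_cast h3
      rw [Nat.cast_add, Nat.cast_mul 4, Nat.cast_one, Nat.cast_pow] at h4
      push_cast at h4 ⊢
      linarith
    have h5 : (P.card : ℝ) ≤ ((EE n (fun a b c => 2 * a < c ∧ c ≤ 2 * b)).card : ℝ) := by
      exact_mod_cast h1
    refine le_trans (le_trans ?_ h2) h5
    rw [sum_sub_distrib, ← mul_sum, sum_sq']
    simp only [sum_const, card_range, nsmul_eq_mul]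
    have : (0 : ℝ) ≤ n := Nat.cast_nonneg n
    rcases Nat.eq_zero_or_pos n with h0 | h0
    · subst h0
      simp
    · have h1 : (1 : ℝ) ≤ n := by exact_mod_cast h0
      nlinarith [sq_nonneg (n : ℝ)]

/-- signs `-, 0, +` -/
theorem l4 : Lower SignType.neg 0 SignType.pos (1 / 2) := by
  refine lower_of ⟨1, fun n => ⟨EE n (fun a b c => a + b < n ∧ n ≤ b + c), isGraph_EE _ _,
    ?_, ?_, ?_⟩⟩
  · intro a b c d h1 h2 h3 h4
    rw [mem_EE] at h1 h2 h3 h4
    omega
  · refine ⟨fun a b c a' h1 h2 h3 => ?_, fun a b c b' h1 h2 h3 h4 => absurd h4 id,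
      fun a b c c' h1 h2 h3 h4 => ?_⟩
    · change a' < a at h3
      rw [mem_EE] at h1 ⊢
      omega
    · change c < c' at h4
      rw [mem_EE] at h1 ⊢
      omega
  · obtain ⟨h, hh⟩ : ∃ h, n / 2 = h := ⟨_, rfl⟩
    set P : Finset (Σ _ : ℕ, Σ _ : ℕ, ℕ × ℕ) :=
      (range 2).sigma (fun _ => (range h).sigma (fun j => range j ×ˢ range j)) with hP
    have h1 : P.card ≤ (EE n (fun a b c => a + b < n ∧ n ≤ b + c)).card := by
      apply card_le_card_of_injOn
        (fun p => (p.2.2.1, if p.1 = 0 then p.2.1 else n - 1 - p.2.1, n - 1 - p.2.2.2))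
      · rintro ⟨s, j, u, v⟩ hp
        rw [mem_coe, hP, mem_sigma, mem_sigma, mem_product, mem_range, mem_range, mem_range,
          mem_range] at hp
        simp only at hp
        rw [mem_coe, mem_EE]
        simp only
        split_ifs <;> omega
      · rintro ⟨s, j, u, v⟩ hp ⟨s', j', u', v'⟩ hp' he
        rw [mem_coe, hP, mem_sigma, mem_sigma, mem_product, mem_range, mem_range, mem_range,
          mem_range] at hp hp'
        simp only at hp hp'
        simp only [Prod.mk.injEq] at he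
        have e1 : s = s' := by
          obtain ⟨_, he, _⟩ := he
          split_ifs at he <;> omega
        have e2 : j = j' := by
          obtain ⟨_, he, _⟩ := he
          split_ifs at he <;> omega
        have e3 : u = u' := he.1
        have e4 : v = v' := by omega
        rw [e1, e2, e3, e4]
    have h2 : ((P.card : ℕ) : ℝ) = 2 * ∑ j ∈ range h, (j : ℝ) ^ 2 := by
      rw [hP, card_sigma, sum_const, card_sigma, card_range]
      simp only [card_product, card_range, smul_eq_mul]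
      push_cast
      congr 1
      refine sum_congr rfl fun j _ => ?_
      ring
    have h5 : (P.card : ℝ) ≤ ((EE n (fun a b c => a + b < n ∧ n ≤ b + c)).card : ℝ) := by
      exact_mod_cast h1
    refine le_trans ?_ h5
    rw [h2, sum_sq']
    have h6 : (n : ℝ) ≤ 2 * h + 1 := by
      have : n ≤ 2 * h + 1 := by omega
      exact_mod_cast this
    have h7 : 2 * (h : ℝ) ≤ n := by
      have : 2 * h ≤ n := by omega
      exact_mod_cast this
    have h8 : (0 : ℝ) ≤ h := Nat.cast_nonneg h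
    rcases Nat.eq_zero_or_pos n with h0 | h0
    · subst h0
      have : h = 0 := by omega
      subst this
      simp
    · have h9 : (1 : ℝ) ≤ n := by exact_mod_cast h0
      rcases le_or_gt (h : ℝ) ((n : ℝ) / 2) with h10 | h10
      · have h11 : ((n : ℝ) - 1) ^ 3 / 8 ≤ (h : ℝ) ^ 3 := by
          have : ((n : ℝ) - 1) / 2 ≤ h := by linarith
          have h12 : 0 ≤ ((n : ℝ) - 1) / 2 := by linarith
          calc ((n : ℝ) - 1) ^ 3 / 8 = (((n : ℝ) - 1) / 2) ^ 3 := by ring
            _ ≤ (h : ℝ) ^ 3 := pow_le_pow_left₀ h12 this 3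
        have h13 : (h : ℝ) ^ 2 ≤ (n : ℝ) ^ 2 / 4 := by nlinarith
        nlinarith
      · linarith

/-- signs `-, +, +` -/
theorem l5 : Lower SignType.neg SignType.pos SignType.pos (4 / 9) := by
  refine lower_of ⟨1, fun n => ⟨EE n (fun a b _ => a < n / 3 ∧ n / 3 ≤ b), isGraph_EE _ _,
    ?_, ?_, ?_⟩⟩
  · intro a b c d h1 h2 h3 h4
    rw [mem_EE] at h1 h2 h3 h4
    omega
  · refine ⟨fun a b c a' h1 h2 h3 => ?_, fun a b c b' h1 h2 h3 h4 => ?_,
      fun a b c c' h1 h2 h3 h4 => ?_⟩
    · change a' < a at h3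
      rw [mem_EE] at h1 ⊢
      omega
    · change b < b' at h4
      rw [mem_EE] at h1 ⊢
      omega
    · rw [mem_EE] at h1 ⊢
      exact ⟨h1.1, h2, h3, h1.2.2.2⟩
  · obtain ⟨t, ht⟩ : ∃ t, n / 3 = t := ⟨_, rfl⟩
    rw [ht]
    set P : Finset (ℕ × Σ _ : ℕ, ℕ) :=
      range t ×ˢ (range (n - t)).sigma (fun j => range j) with hP
    have h1 : P.card ≤ (EE n (fun a b _ => a < t ∧ t ≤ b)).card := by
      apply card_le_card_of_injOn (fun p => (p.1, t + p.2.2, t + p.2.1))
      · rintro ⟨a, j, i⟩ hp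
        rw [mem_coe, hP, mem_product, mem_sigma, mem_range, mem_range, mem_range] at hp
        simp only at hp
        rw [mem_coe, mem_EE]
        simp only
        omega
      · rintro ⟨a, j, i⟩ hp ⟨a', j', i'⟩ hp' he
        simp only [Prod.mk.injEq] at he
        have e1 : a = a' := he.1
        have e2 : j = j' := by omega
        have e3 : i = i' := by omega
        rw [e1, e2, e3]
    have h2 : ((P.card : ℕ) : ℝ) = t * (((n - t : ℕ) : ℝ) * (((n - t : ℕ) : ℝ) - 1) / 2) := by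
      rw [hP, card_product, card_sigma, card_range]
      simp only [card_range]
      push_cast
      rw [sum_id']
    have h5 : (P.card : ℝ) ≤ ((EE n (fun a b _ => a < t ∧ t ≤ b)).card : ℝ) := by
      exact_mod_cast h1
    refine le_trans ?_ h5
    rw [h2, Nat.cast_sub (by omega)]
    have h6 : (n : ℝ) ≤ 3 * t + 2 := by
      have : n ≤ 3 * t + 2 := by omega
      exact_mod_cast this
    have h7 : 3 * (t : ℝ) ≤ n := by
      have : 3 * t ≤ n := by omega
      exact_mod_cast this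
    have h8 : (0 : ℝ) ≤ t := Nat.cast_nonneg t
    rcases le_or_gt n 2 with h0 | h0
    · have ht0 : t = 0 := by omega
      subst ht0
      have hn2 : (n : ℝ) ≤ 2 := by exact_mod_cast h0
      have hn0 : (0 : ℝ) ≤ n := Nat.cast_nonneg n
      push_cast
      nlinarith [sq_nonneg (n : ℝ)]
    · have h9 : (3 : ℝ) ≤ n := by exact_mod_cast h0
      have h10 : 2 * (n : ℝ) / 3 ≤ (n : ℝ) - t := by linarith
      have h11 : (2 * (n : ℝ) / 3) * (2 * (n : ℝ) / 3 - 1) ≤ ((n : ℝ) - t) * ((n : ℝ) - t - 1) := by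
        apply mul_le_mul h10 (by linarith) (by linarith) (by linarith)
      have h12 : ((n : ℝ) - 2) / 3 * ((2 * (n : ℝ) / 3) * (2 * (n : ℝ) / 3 - 1)) ≤
          (t : ℝ) * (((n : ℝ) - t) * ((n : ℝ) - t - 1)) := by
        apply mul_le_mul (by linarith) h11 _ h8
        apply mul_nonneg <;> linarith
      nlinarith

end Pool.Agent.H86.MT
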