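import Pool.Agent.H86.MT.L1

/-!
# Monotone 3-graphs: the lower bound for the classes with value `2 √3 - 3`
-/

set_option autoImplicit false
open Finset

namespace Pool.Agent.H86.MT

/-- the ratio -/
noncomputable def ρ₀ : ℝ := (Real.sqrt 3 - 1) / 2

theorem ρ₀_eq : ρ₀ ^ 2 = 1 / 2 - ρ₀ := by
  unfold ρ₀
  have h : Real.sqrt 3 ^ 2 = 3 := Real.sq_sqrt (by norm_num)
  nlinarith

theorem ρ₀_gt : 36 / 100 < ρ₀ := by
  unfold ρ₀
  have h : (172 / 100 : ℝ) < Real.sqrt 3 := by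
    apply Real.lt_sqrt_of_sq_lt
    norm_num
  linarith

theorem ρ₀_lt : ρ₀ < 37 / 100 := by
  unfold ρ₀
  have h : Real.sqrt 3 < (174 / 100 : ℝ) := by
    rw [Real.sqrt_lt' (by norm_num)]
    norm_num
  linarith

theorem κ₀_ρ₀ : κ₀ = (4 * ρ₀ - 1) / 6 := by
  unfold κ₀ ρ₀
  ring

/-- the step of the recursion -/
theorem step_ineq (n s : ℝ) (hn : 0 ≤ n) (hs0 : 0 ≤ s) (hs1 : s ≤ ρ₀ * n) (hs2 : ρ₀ * n - 1 ≤ s) :
    κ₀ * n ^ 3 - n ^ 2 ≤ κ₀ * s ^ 3 - s ^ 2 + s * ((n - s) * (n - s - 1) / 2) := by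
  have hρ := ρ₀_eq
  have hρ1 := ρ₀_gt
  have hρ2 := ρ₀_lt
  have hκ := κ₀_ρ₀
  have hκ0 := κ₀_pos
  set ρ := ρ₀ with hρdef
  set κ := κ₀ with hκdef
  have hκ1 : κ ≤ 8 / 100 := by rw [hκ]; linarith
  have hρn : 0 ≤ ρ * n := by positivity
  -- the cubes
  have h1 : κ * (ρ * n) ^ 3 - 3 * κ * (ρ * n) ^ 2 ≤ κ * s ^ 3 := by
    have h2 : (ρ * n) ^ 3 - s ^ 3 ≤ 3 * (ρ * n) ^ 2 := by
      have e : (ρ * n) ^ 3 - s ^ 3 = (ρ * n - s) * ((ρ * n) ^ 2 + (ρ * n) * s + s ^ 2) := by ring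
      rw [e]
      have h3 : (ρ * n) ^ 2 + (ρ * n) * s + s ^ 2 ≤ 3 * (ρ * n) ^ 2 := by nlinarith
      have h4 : 0 ≤ (ρ * n) ^ 2 + (ρ * n) * s + s ^ 2 := by positivity
      nlinarith
    nlinarith
  have h2 : s ^ 2 ≤ (ρ * n) ^ 2 := by nlinarith
  have h3 : (1 - ρ) * n ≤ n - s := by linarith
  have h4 : ((1 - ρ) * n) ^ 2 ≤ (n - s) ^ 2 := by
    have : 0 ≤ (1 - ρ) * n := by
      apply mul_nonneg _ hn
      linarith
    nlinarith
  have h5 : s * ((1 - ρ) * n) ^ 2 ≤ s * (n - s) ^ 2 := mul_le_mul_of_nonneg_left h4 hs0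
  have h6 : (ρ * n - 1) * ((1 - ρ) * n) ^ 2 ≤ s * ((1 - ρ) * n) ^ 2 :=
    mul_le_mul_of_nonneg_right hs2 (sq_nonneg _)
  have h7 : s * (n - s) ≤ ρ * n * n := by nlinarith
  have e1 : s * ((n - s) * (n - s - 1) / 2) = 1 / 2 * (s * (n - s) ^ 2) - 1 / 2 * (s * (n - s)) := by
    ring
  rw [e1]
  have h8 : κ * (ρ * n) ^ 3 + 1 / 2 * (ρ * n * ((1 - ρ) * n) ^ 2) = κ * n ^ 3 := by
    have e2 : κ * ρ ^ 3 + 1 / 2 * ρ * (1 - ρ) ^ 2 = κ := by
      have e3 : ρ ^ 3 = ρ / 2 - 1 / 2 + ρ := by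
        have : ρ ^ 3 = ρ * ρ ^ 2 := by ring
        rw [this, hρ]
        linear_combination (-1 : ℝ) * hρ
      rw [e3, hκ]
      linear_combination (ρ / 2 - 1 / 2) * hρ
    have e4 : κ * (ρ * n) ^ 3 + 1 / 2 * (ρ * n * ((1 - ρ) * n) ^ 2) =
        (κ * ρ ^ 3 + 1 / 2 * ρ * (1 - ρ) ^ 2) * n ^ 3 := by ring
    rw [e4, e2]
  have h9 : 3 * κ * (ρ * n) ^ 2 + (ρ * n) ^ 2 + 1 / 2 * ((1 - ρ) * n) ^ 2 + 1 / 2 * (ρ * n * n) ≤
      n ^ 2 := by
    have e5 : 3 * κ * (ρ * n) ^ 2 + (ρ * n) ^ 2 + 1 / 2 * ((1 - ρ) * n) ^ 2 + 1 / 2 * (ρ * n * n) =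
        (3 * κ * ρ ^ 2 + ρ ^ 2 + 1 / 2 * (1 - ρ) ^ 2 + 1 / 2 * ρ) * n ^ 2 := by ring
    rw [e5]
    have h10 : 3 * κ * ρ ^ 2 + ρ ^ 2 + 1 / 2 * (1 - ρ) ^ 2 + 1 / 2 * ρ ≤ 1 := by
      nlinarith
    nlinarith [sq_nonneg n]
  nlinarith

theorem l6_aux (n : ℕ) : ∃ E : Finset (ℕ × ℕ × ℕ), IsGraph n E ∧ K4Free E ∧
    (∀ a b c a' : ℕ, (a, b, c) ∈ E → a' < a → (a', b, c) ∈ E) ∧
    (∀ a b c b' : ℕ, (a, b, c) ∈ E → b < b' → b' < c → (a, b', c) ∈ E) ∧
    (∀ a b c c' : ℕ, (a, b, c) ∈ E → b < c' → c' < c → (a, b, c') ∈ E) ∧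
    κ₀ * (n : ℝ) ^ 3 - (n : ℝ) ^ 2 ≤ (E.card : ℝ) := by
  classical
  induction n using Nat.strong_induction_on with
  | _ n ih =>
    rcases Nat.eq_zero_or_pos n with h0 | h0
    · subst h0
      refine ⟨∅, ?_, ?_, ?_, ?_, ?_, ?_⟩
      · intro a b c h
        simp at h
      · intro a b c d h1 h2 h3 h4
        simp at h1
      · intro a b c a' h
        simp at h
      · intro a b c a' h
        simp at h
      · intro a b c a' h
        simp at h
      · simp
    · have hρ1 := ρ₀_gt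
      have hρ2 := ρ₀_lt
      have hn : (1 : ℝ) ≤ n := by exact_mod_cast h0
      obtain ⟨t, ht⟩ : ∃ t, ⌊ρ₀ * (n : ℝ)⌋₊ = t := ⟨_, rfl⟩
      have ht1 : (t : ℝ) ≤ ρ₀ * n := by
        rw [← ht]
        exact Nat.floor_le (by positivity)
      have ht2 : ρ₀ * n - 1 ≤ t := by
        have := Nat.lt_floor_add_one (ρ₀ * (n : ℝ))
        rw [ht] at this
        linarith
      have htn : t < n := by
        have : (t : ℝ) < n := by nlinarith
        exact_mod_cast this
      obtain ⟨E, h1, h2, h3, h4, h5, h6⟩ := ih t htn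
      set F := EE n (fun a b _ => a < t ∧ t ≤ b) with hF
      have hmem : ∀ a b c, (a, b, c) ∈ E ∪ F ↔ ((a, b, c) ∈ E ∨ (a < t ∧ t ≤ b ∧ b < c ∧ c < n)) := by
        intro a b c
        rw [mem_union, hF, mem_EE]
        constructor
        · rintro (h | h)
          · exact Or.inl h
          · right
            omega
        · rintro (h | h)
          · exact Or.inl h
          · right
            omega
      refine ⟨E ∪ F, ?_, ?_, ?_, ?_, ?_, ?_⟩
      · intro a b c h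
        rw [hmem] at h
        rcases h with h | h
        · have := h1 _ _ _ h
          omega
        · omega
      · intro a b c d g1 g2 g3 g4
        rw [hmem] at g1 g2 g3 g4
        rcases g4 with g4 | g4
        · have q4 := h1 _ _ _ g4
          rcases g1 with g1 | g1
          · rcases g2 with g2 | g2
            · rcases g3 with g3 | g3
              · exact h2 _ _ _ _ g1 g2 g3 g4
              · omega
            · omega
          · omega
        · rcases g2 with g2 | g2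
          · have := h1 _ _ _ g2
            omega
          · omega
      · intro a b c a' g1 g2
        rw [hmem] at g1 ⊢
        rcases g1 with g1 | g1
        · exact Or.inl (h3 _ _ _ _ g1 g2)
        · right
          omega
      · intro a b c b' g1 g2 g3
        rw [hmem] at g1 ⊢
        rcases g1 with g1 | g1
        · exact Or.inl (h4 _ _ _ _ g1 g2 g3)
        · right
          omega
      · intro a b c c' g1 g2 g3
        rw [hmem] at g1 ⊢
        rcases g1 with g1 | g1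
        · exact Or.inl (h5 _ _ _ _ g1 g2 g3)
        · right
          omega
      · have hdisj : Disjoint E F := by
          rw [disjoint_left]
          rintro ⟨a, b, c⟩ g1 g2
          have := h1 _ _ _ g1
          rw [hF, mem_EE] at g2
          omega
        rw [card_union_of_disjoint hdisj]
        set P : Finset (ℕ × Σ _ : ℕ, ℕ) :=
          range t ×ˢ (range (n - t)).sigma (fun j => range j) with hP
        have k1 : P.card ≤ F.card := by
          apply card_le_card_of_injOn (fun p => (p.1, t + p.2.2, t + p.2.1))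
          · rintro ⟨a, j, i⟩ hp
            rw [mem_coe, hP, mem_product, mem_sigma, mem_range, mem_range, mem_range] at hp
            simp only at hp
            rw [mem_coe, hF, mem_EE]
            simp only
            omega
          · rintro ⟨a, j, i⟩ hp ⟨a', j', i'⟩ hp' he
            simp only [Prod.mk.injEq] at he
            have e1 : a = a' := he.1
            have e2 : j = j' := by omega
            have e3 : i = i' := by omega
            rw [e1, e2, e3]
        have k2 : ((P.card : ℕ) : ℝ) = t * (((n - t : ℕ) : ℝ) * (((n - t : ℕ) : ℝ) - 1) / 2) := by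
          rw [hP, card_product, card_sigma, card_range]
          simp only [card_range]
          push_cast
          rw [sum_id']
        have k3 : (P.card : ℝ) ≤ (F.card : ℝ) := by exact_mod_cast k1
        rw [k2, Nat.cast_sub htn.le] at k3
        have k4 := step_ineq n t (by linarith) (Nat.cast_nonneg t) ht1 ht2
        push_cast
        linarith

/-- signs `-, +, -` -/
theorem l6 : Lower SignType.neg SignType.pos SignType.neg (2 * Real.sqrt 3 - 3) := by
  refine lower_of ⟨1, fun n => ?_⟩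
  obtain ⟨E, h1, h2, h3, h4, h5, h6⟩ := l6_aux n
  refine ⟨E, h1, h2, ⟨fun a b c a' g1 g2 g3 => h3 _ _ _ _ g1 g3,
    fun a b c b' g1 g2 g3 g4 => h4 _ _ _ _ g1 g4 g3,
    fun a b c c' g1 g2 g3 g4 => h5 _ _ _ _ g1 g2 g4⟩, ?_⟩
  rw [val_six, one_mul]
  exact h6

end Pool.Agent.H86.MT
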