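import Pool.Agent.H86.MT.Defs

/-!
# Almost monotone 3-graphs: sampling
-/

set_option autoImplicit false
open Finset

namespace Pool.Agent.H86.MT

/-- `E` is monotone on the vertices in `S`: the conditions of `Mono` for moves within `S` -/
def MonoOn (S : Finset ℕ) (x y z : SignType) (E : Finset (ℕ × ℕ × ℕ)) : Prop :=
  (∀ a ∈ S, ∀ b ∈ S, ∀ c ∈ S, ∀ a' ∈ S, (a, b, c) ∈ E → a' < b → Dir x a a' →
    (a', b, c) ∈ E) ∧
  (∀ a ∈ S, ∀ b ∈ S, ∀ c ∈ S, ∀ b' ∈ S, (a, b, c) ∈ E → a < b' → b' < c → Dir y b b' →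
    (a, b', c) ∈ E) ∧
  (∀ a ∈ S, ∀ b ∈ S, ∀ c ∈ S, ∀ c' ∈ S, (a, b, c) ∈ E → b < c' → Dir z c c' →
    (a, b, c') ∈ E)

open scoped Classical in
/-- the 4-sets of vertices on which `E` is not monotone -/
noncomputable def viol (n : ℕ) (x y z : SignType) (E : Finset (ℕ × ℕ × ℕ)) : Finset (Finset ℕ) :=
  (powersetCard 4 (range n)).filter (fun S => ¬ MonoOn S x y z E)

theorem Dir.ne {s : SignType} {t t' : ℕ} (h : Dir s t t') : t ≠ t' := by
  cases s
  · exact absurd h id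
  · exact (ne_of_lt (show t' < t from h)).symm
  · exact ne_of_lt (show t < t' from h)

theorem monoOn_of_viol {n : ℕ} {x y z : SignType} {E : Finset (ℕ × ℕ × ℕ)} (hE : IsGraph n E)
    {T : Finset ℕ} (hT : T ⊆ range n) (h : ∀ S ∈ viol n x y z E, ¬ S ⊆ T) :
    MonoOn T x y z E := by
  classical
  have key : ∀ S ⊆ T, S.card = 4 → MonoOn S x y z E := by
    intro S hS hc
    by_contra hcon
    refine h S ?_ hS
    unfold viol
    rw [mem_filter, mem_powersetCard]
    exact ⟨⟨hS.trans hT, hc⟩, hcon⟩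
  have four : ∀ p ∈ T, ∀ q ∈ T, ∀ r ∈ T, ∀ s ∈ T, p ≠ q → p ≠ r → p ≠ s → q ≠ r → q ≠ s →
      r ≠ s → MonoOn {p, q, r, s} x y z E := by
    intro p hp q hq r hr s hs h1 h2 h3 h4 h5 h6
    apply key
    · intro w hw
      simp only [mem_insert, mem_singleton] at hw
      rcases hw with rfl | rfl | rfl | rfl <;> assumption
    · rw [card_insert_of_notMem (by simp [h1, h2, h3]), card_insert_of_notMem (by simp [h4, h5]),
        card_pair h6]
  refine ⟨?_, ?_, ?_⟩
  · intro a ha b hb c hc a' ha' he h1 h2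
    have h3 := hE _ _ _ he
    have h4 := h2.ne
    exact (four a ha a' ha' b hb c hc h4 (by omega) (by omega) (by omega) (by omega)
      (by omega)).1 a (by simp) b (by simp) c (by simp) a' (by simp) he h1 h2
  · intro a ha b hb c hc b' hb' he h1 h1' h2
    have h3 := hE _ _ _ he
    have h4 := h2.ne
    exact (four a ha b hb b' hb' c hc (by omega) (by omega) (by omega) h4 (by omega)
      (by omega)).2.1 a (by simp) b (by simp) c (by simp) b' (by simp) he h1 h1' h2
  · intro a ha b hb c hc c' hc' he h1 h2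
    have h3 := hE _ _ _ he
    have h4 := h2.ne
    exact (four a ha b hb c hc c' hc' (by omega) (by omega) (by omega) (by omega) (by omega)
      h4).2.2 a (by simp) b (by simp) c (by simp) c' (by simp) he h1 h2

/-- the edges within `T` -/
def within (E : Finset (ℕ × ℕ × ℕ)) (T : Finset ℕ) : Finset (ℕ × ℕ × ℕ) :=
  E.filter (fun t => t.1 ∈ T ∧ t.2.1 ∈ T ∧ t.2.2 ∈ T)

/-- the rank in `T` -/
def rk (T : Finset ℕ) (t : ℕ) : ℕ := (T.filter (· < t)).card

theorem rk_lt {T : Finset ℕ} {s t : ℕ} (hs : s ∈ T) (h : s < t) : rk T s < rk T t := by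
  apply card_lt_card
  rw [ssubset_iff_of_subset]
  · refine ⟨s, ?_, ?_⟩
    · rw [mem_filter]
      exact ⟨hs, h⟩
    · rw [mem_filter]
      rintro ⟨_, h'⟩
      exact lt_irrefl _ h'
  · intro w hw
    rw [mem_filter] at hw ⊢
    exact ⟨hw.1, lt_trans hw.2 h⟩

theorem rk_lt_iff {T : Finset ℕ} {s t : ℕ} (hs : s ∈ T) (ht : t ∈ T) :
    rk T s < rk T t ↔ s < t := by
  constructor
  · intro h
    by_contra hcon
    rcases (not_lt.1 hcon).eq_or_lt with h1 | h1
    · rw [h1] at h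
      exact lt_irrefl _ h
    · exact lt_asymm h (rk_lt ht h1)
  · exact rk_lt hs

theorem rk_inj {T : Finset ℕ} {s t : ℕ} (hs : s ∈ T) (ht : t ∈ T) (h : rk T s = rk T t) :
    s = t := by
  rcases lt_trichotomy s t with h1 | h1 | h1
  · exact absurd h (ne_of_lt (rk_lt hs h1))
  · exact h1
  · exact absurd h.symm (ne_of_lt (rk_lt ht h1))

theorem rk_range {T : Finset ℕ} {N : ℕ} (hT : T.card = N) {t : ℕ} (ht : t ∈ T) : rk T t < N := by
  rw [← hT]
  apply card_lt_card
  rw [ssubset_iff_of_subset (filter_subset _ _)]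
  refine ⟨t, ht, ?_⟩
  rw [mem_filter]
  rintro ⟨_, h'⟩
  exact lt_irrefl _ h'

theorem rk_surj {T : Finset ℕ} {N : ℕ} (hT : T.card = N) {i : ℕ} (hi : i < N) :
    ∃ t ∈ T, rk T t = i := by
  have h1 : T.image (rk T) = range N := by
    apply eq_of_subset_of_card_le
    · intro w hw
      rw [mem_image] at hw
      obtain ⟨t, ht, rfl⟩ := hw
      exact mem_range.2 (rk_range hT ht)
    · rw [card_range, card_image_of_injOn, hT]
      intro s hs t ht h
      exact rk_inj hs ht h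
  have h2 : i ∈ T.image (rk T) := by
    rw [h1]
    exact mem_range.2 hi
  rw [mem_image] at h2
  exact h2

/-- the 3-graph within `T`, with the vertices renamed in order -/
def ren (E : Finset (ℕ × ℕ × ℕ)) (T : Finset ℕ) : Finset (ℕ × ℕ × ℕ) :=
  (within E T).image (fun t => (rk T t.1, rk T t.2.1, rk T t.2.2))

theorem mem_ren {E : Finset (ℕ × ℕ × ℕ)} {T : Finset ℕ} {a b c : ℕ} (ha : a ∈ T) (hb : b ∈ T)
    (hc : c ∈ T) : (rk T a, rk T b, rk T c) ∈ ren E T ↔ (a, b, c) ∈ E := by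
  unfold ren within
  rw [mem_image]
  constructor
  · rintro ⟨⟨a', b', c'⟩, h, he⟩
    rw [mem_filter] at h
    simp only [Prod.mk.injEq] at he h
    rw [← rk_inj h.2.1 ha he.1, ← rk_inj h.2.2.1 hb he.2.1, ← rk_inj h.2.2.2 hc he.2.2]
    exact h.1
  · intro h
    exact ⟨(a, b, c), by rw [mem_filter]; exact ⟨h, ha, hb, hc⟩, rfl⟩

theorem ren_mem {E : Finset (ℕ × ℕ × ℕ)} {T : Finset ℕ} {i j k : ℕ} (h : (i, j, k) ∈ ren E T) :
    ∃ a ∈ T, ∃ b ∈ T, ∃ c ∈ T, rk T a = i ∧ rk T b = j ∧ rk T c = k ∧ (a, b, c) ∈ E := by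
  unfold ren within at h
  rw [mem_image] at h
  obtain ⟨⟨a, b, c⟩, h, he⟩ := h
  rw [mem_filter] at h
  simp only [Prod.mk.injEq] at he h
  exact ⟨a, h.2.1, b, h.2.2.1, c, h.2.2.2, he.1, he.2.1, he.2.2, h.1⟩

theorem card_ren (E : Finset (ℕ × ℕ × ℕ)) (T : Finset ℕ) : (ren E T).card = (within E T).card := by
  unfold ren
  apply card_image_of_injOn
  rintro ⟨a, b, c⟩ h ⟨a', b', c'⟩ h' he
  rw [mem_coe, within, mem_filter] at h h'
  simp only [Prod.mk.injEq] at he h h' ⊢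
  exact ⟨rk_inj h.2.1 h'.2.1 he.1, rk_inj h.2.2.1 h'.2.2.1 he.2.1, rk_inj h.2.2.2 h'.2.2.2 he.2.2⟩

theorem isGraph_ren {n N : ℕ} {E : Finset (ℕ × ℕ × ℕ)} (hE : IsGraph n E) {T : Finset ℕ}
    (hT : T.card = N) : IsGraph N (ren E T) := by
  intro i j k h
  obtain ⟨a, ha, b, hb, c, hc, rfl, rfl, rfl, he⟩ := ren_mem h
  have h1 := hE _ _ _ he
  exact ⟨rk_lt ha h1.1, rk_lt hb h1.2.1, rk_range hT hc⟩

theorem k4Free_ren {E : Finset (ℕ × ℕ × ℕ)} (hK : K4Free E) (T : Finset ℕ) :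
    K4Free (ren E T) := by
  intro i j k l h1 h2 h3 h4
  obtain ⟨a, ha, b, hb, c, hc, rfl, rfl, rfl, he⟩ := ren_mem h1
  obtain ⟨a', ha', b', hb', d, hd, -, -, rfl, -⟩ := ren_mem h2
  rw [mem_ren ha hb hd] at h2
  rw [mem_ren ha hc hd] at h3
  rw [mem_ren hb hc hd] at h4
  exact hK a b c d he h2 h3 h4

theorem dir_rk {s : SignType} {T : Finset ℕ} {t t' : ℕ} (ht : t ∈ T) (ht' : t' ∈ T)
    (h : Dir s (rk T t) (rk T t')) : Dir s t t' := by
  cases s
  · exact absurd h id
  · exact (rk_lt_iff ht' ht).1 h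
  · exact (rk_lt_iff ht ht').1 h

theorem mono_ren {N : ℕ} {x y z : SignType} {E : Finset (ℕ × ℕ × ℕ)}
    {T : Finset ℕ} (hT : T.card = N) (hM : MonoOn T x y z E) : Mono N x y z (ren E T) := by
  refine ⟨?_, ?_, ?_⟩
  · intro i j k i' h h1 h2
    obtain ⟨a, ha, b, hb, c, hc, rfl, rfl, rfl, he⟩ := ren_mem h
    obtain ⟨a', ha', rfl⟩ := rk_surj hT (lt_trans h1 (rk_range hT hb))
    rw [mem_ren ha' hb hc]
    exact hM.1 a ha b hb c hc a' ha' he ((rk_lt_iff ha' hb).1 h1) (dir_rk ha ha' h2)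
  · intro i j k j' h h1 h1' h2
    obtain ⟨a, ha, b, hb, c, hc, rfl, rfl, rfl, he⟩ := ren_mem h
    obtain ⟨b', hb', rfl⟩ := rk_surj hT (lt_trans h1' (rk_range hT hc))
    rw [mem_ren ha hb' hc]
    exact hM.2.1 a ha b hb c hc b' hb' he ((rk_lt_iff ha hb').1 h1) ((rk_lt_iff hb' hc).1 h1')
      (dir_rk hb hb' h2)
  · intro i j k k' h h1 hk h2
    obtain ⟨a, ha, b, hb, c, hc, rfl, rfl, rfl, he⟩ := ren_mem h
    obtain ⟨c', hc', rfl⟩ := rk_surj hT hk
    rw [mem_ren ha hb hc']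
    exact hM.2.2 a ha b hb c hc c' hc' he ((rk_lt_iff hb hc').1 h1) (dir_rk hc hc' h2)

theorem card_graph {N : ℕ} {E : Finset (ℕ × ℕ × ℕ)} (hE : IsGraph N E) : E.card ≤ N ^ 3 := by
  have h : E ⊆ range N ×ˢ (range N ×ˢ range N) := by
    rintro ⟨a, b, c⟩ h
    have := hE _ _ _ h
    rw [mem_product, mem_product, mem_range, mem_range, mem_range]
    simp only
    omega
  refine le_trans (card_le_card h) ?_
  rw [card_product, card_product, card_range]
  exact le_of_eq (by ring)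

/-- few supersets -/
theorem card_super_le {n N k : ℕ} {S : Finset ℕ} (hS : S ⊆ range n) (hc : S.card = k) :
    ((powersetCard N (range n)).filter (fun T => S ⊆ T)).card ≤ (n - k).choose (N - k) := by
  have h : (powersetCard (N - k) (range n \ S)).card = (n - k).choose (N - k) := by
    rw [card_powersetCard, card_sdiff_of_subset hS, card_range, hc]
  rw [← h]
  apply card_le_card_of_injOn (fun T => T \ S)
  · intro T hT
    rw [mem_coe, mem_filter, mem_powersetCard] at hT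
    rw [mem_coe, mem_powersetCard]
    refine ⟨sdiff_subset_sdiff hT.1.1 (subset_refl _), ?_⟩
    rw [card_sdiff_of_subset hT.2, hT.1.2, hc]
  · intro T hT T' hT' he
    rw [mem_coe, mem_filter] at hT hT'
    simp only at he
    rw [← sdiff_union_of_subset hT.2, ← sdiff_union_of_subset hT'.2, he]

/-- many supersets -/
theorem le_card_super {n N k : ℕ} {S : Finset ℕ} (hS : S ⊆ range n) (hc : S.card = k)
    (hN : k ≤ N) :
    (n - k).choose (N - k) ≤ ((powersetCard N (range n)).filter (fun T => S ⊆ T)).card := by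
  have h : (powersetCard (N - k) (range n \ S)).card = (n - k).choose (N - k) := by
    rw [card_powersetCard, card_sdiff_of_subset hS, card_range, hc]
  rw [← h]
  apply card_le_card_of_injOn (fun U => U ∪ S)
  · intro U hU
    rw [mem_coe, mem_powersetCard] at hU
    rw [mem_coe, mem_filter, mem_powersetCard]
    have hd : Disjoint U S := by
      rw [disjoint_left]
      intro w hw hw'
      exact (mem_sdiff.1 (hU.1 hw)).2 hw'
    refine ⟨⟨union_subset (hU.1.trans sdiff_subset) hS, ?_⟩, subset_union_right⟩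
    rw [card_union_of_disjoint hd, hU.2, hc]
    omega
  · intro U hU U' hU' he
    rw [mem_coe, mem_powersetCard] at hU hU'
    simp only at he
    have hd : ∀ V : Finset ℕ, V ⊆ range n \ S → (V ∪ S) \ S = V := by
      intro V hV
      rw [union_sdiff_right]
      exact sdiff_eq_self_of_disjoint (by
        rw [disjoint_left]
        intro w hw hw'
        exact (mem_sdiff.1 (hV hw)).2 hw')
    rw [← hd U hU.1, ← hd U' hU'.1, he]

/-- sampling `N` vertices -/
theorem sampling {n N : ℕ} {x y z : SignType} {E : Finset (ℕ × ℕ × ℕ)} (hE : IsGraph n E)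
    (hK : K4Free E) (hN : 4 ≤ N) (X : ℝ)
    (hX : ∀ F : Finset (ℕ × ℕ × ℕ), IsGraph N F → K4Free F → Mono N x y z F → (F.card : ℝ) ≤ X)
    (hX0 : 0 ≤ X) :
    (E.card : ℝ) * ((n - 3).choose (N - 3) : ℝ) ≤ (n.choose N : ℝ) * X +
      ((viol n x y z E).card : ℝ) * ((n - 4).choose (N - 4) : ℝ) * (N : ℝ) ^ 3 := by
  classical
  set P := powersetCard N (range n) with hP
  have hPm : ∀ T ∈ P, T ⊆ range n ∧ T.card = N := fun T hT => by
    rw [hP, mem_powersetCard] at hT
    exact hT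
  -- the sum over the samples
  have h1 : E.card * (n - 3).choose (N - 3) ≤ ∑ T ∈ P, (within E T).card := by
    have e1 : ∀ T ∈ P, (within E T).card =
        ∑ t ∈ E, if (t.1 ∈ T ∧ t.2.1 ∈ T ∧ t.2.2 ∈ T) then 1 else 0 := by
      intro T _
      unfold within
      rw [card_filter]
    rw [sum_congr rfl e1, sum_comm, ← smul_eq_mul, ← sum_const]
    apply sum_le_sum
    rintro ⟨a, b, c⟩ he
    have h2 := hE _ _ _ he
    rw [← card_filter]
    have h3 := le_card_super (n := n) (N := N) (k := 3) (S := {a, b, c}) (by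
      intro w hw
      simp only [mem_insert, mem_singleton] at hw
      rw [mem_range]
      omega) (by
      rw [card_insert_of_notMem (by
        simp only [mem_insert, mem_singleton]
        omega), card_pair (by omega)]) (by omega)
    refine le_trans h3 (card_le_card ?_)
    intro T hT
    rw [mem_filter] at hT ⊢
    refine ⟨hT.1, hT.2 (by simp), hT.2 (by simp), hT.2 (by simp)⟩
  -- bad samples
  set B := P.filter (fun T => ∃ S ∈ viol n x y z E, S ⊆ T) with hB
  have hBc : B.card ≤ (viol n x y z E).card * (n - 4).choose (N - 4) := by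
    have h2 : B ⊆ (viol n x y z E).biUnion (fun S => P.filter (fun T => S ⊆ T)) := by
      intro T hT
      rw [hB, mem_filter] at hT
      obtain ⟨hT1, S, hS, hST⟩ := hT
      rw [mem_biUnion]
      exact ⟨S, hS, by rw [mem_filter]; exact ⟨hT1, hST⟩⟩
    refine le_trans (card_le_card h2) (le_trans card_biUnion_le ?_)
    rw [← smul_eq_mul, ← sum_const]
    apply sum_le_sum
    intro S hS
    unfold viol at hS
    rw [mem_filter, mem_powersetCard] at hS
    exact card_super_le hS.1.1 hS.1.2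
  have h3 : ∑ T ∈ P, ((within E T).card : ℝ) ≤ (P.card : ℝ) * X + (B.card : ℝ) * (N : ℝ) ^ 3 := by
    have h4 : ∀ T ∈ P, ((within E T).card : ℝ) ≤ X +
        (if ∃ S ∈ viol n x y z E, S ⊆ T then (N : ℝ) ^ 3 else 0) := by
      intro T hT
      have hT' := hPm T hT
      rw [← card_ren]
      split_ifs with hbad
      · have : ((ren E T).card : ℝ) ≤ (N : ℝ) ^ 3 := by
          exact_mod_cast card_graph (isGraph_ren hE hT'.2)
        linarith
      · rw [add_zero]
        apply hX _ (isGraph_ren hE hT'.2) (k4Free_ren hK T)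
        apply mono_ren hT'.2
        apply monoOn_of_viol hE hT'.1
        intro S hS hST
        exact hbad ⟨S, hS, hST⟩
    refine le_trans (sum_le_sum h4) ?_
    rw [sum_add_distrib, sum_const, nsmul_eq_mul, ← sum_filter, sum_const, nsmul_eq_mul]
  have h5 : (P.card : ℝ) = (n.choose N : ℝ) := by
    rw [hP, card_powersetCard, card_range]
  rw [h5] at h3
  have h6 : (E.card : ℝ) * ((n - 3).choose (N - 3) : ℝ) ≤ ∑ T ∈ P, ((within E T).card : ℝ) := by
    exact_mod_cast h1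
  have h7 : (B.card : ℝ) ≤ ((viol n x y z E).card : ℝ) * ((n - 4).choose (N - 4) : ℝ) := by
    exact_mod_cast hBc
  have h8 : (B.card : ℝ) * (N : ℝ) ^ 3 ≤
      ((viol n x y z E).card : ℝ) * ((n - 4).choose (N - 4) : ℝ) * (N : ℝ) ^ 3 :=
    mul_le_mul_of_nonneg_right h7 (by positivity)
  linarith

/-- few violations -/
theorem robust {x y z : SignType} {v : ℝ} (hv : 0 ≤ v) (h : Upper x y z v) :
    ∀ ε : ℝ, 0 < ε → ∃ δ : ℝ, 0 < δ ∧ ∃ n₀ : ℕ, ∀ n : ℕ, n₀ ≤ n → ∀ E : Finset (ℕ × ℕ × ℕ),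
      IsGraph n E → K4Free E → ((viol n x y z E).card : ℝ) ≤ δ * n.choose 4 →
      (E.card : ℝ) ≤ (v + ε) * n.choose 3 := by
  intro ε hε
  obtain ⟨n₁, h1⟩ := h (ε / 2) (by positivity)
  set N := max n₁ 4 with hN
  have hN4 : 4 ≤ N := le_max_right _ _
  have hN1 : n₁ ≤ N := le_max_left _ _
  have c3 : (0 : ℝ) < (N.choose 3 : ℝ) := by exact_mod_cast Nat.choose_pos (by omega)
  have c4 : (0 : ℝ) < (N.choose 4 : ℝ) := by exact_mod_cast Nat.choose_pos hN4
  have hNp : (0 : ℝ) < (N : ℝ) ^ 3 := by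
    have : (0 : ℝ) < N := by exact_mod_cast (show 0 < N by omega)
    positivity
  refine ⟨ε / 2 * (N.choose 3 : ℝ) / ((N.choose 4 : ℝ) * (N : ℝ) ^ 3), by positivity, N,
    fun n hn E hE hK hviol => ?_⟩
  have hX0 : 0 ≤ (v + ε / 2) * (N.choose 3 : ℝ) := by positivity
  have key := sampling (x := x) (y := y) (z := z) hE hK hN4 ((v + ε / 2) * (N.choose 3 : ℝ))
    (fun F f1 f2 f3 => h1 N hN1 F f1 f2 f3) hX0
  have i3 : (n.choose N : ℝ) * (N.choose 3 : ℝ) =
      (n.choose 3 : ℝ) * ((n - 3).choose (N - 3) : ℝ) := by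
    exact_mod_cast Nat.choose_mul (n := n) (show 3 ≤ N by omega)
  have i4 : (n.choose N : ℝ) * (N.choose 4 : ℝ) =
      (n.choose 4 : ℝ) * ((n - 4).choose (N - 4) : ℝ) := by
    exact_mod_cast Nat.choose_mul (n := n) hN4
  have d3 : (0 : ℝ) < ((n - 3).choose (N - 3) : ℝ) := by
    exact_mod_cast Nat.choose_pos (by omega)
  have e1 : ((viol n x y z E).card : ℝ) * ((n - 4).choose (N - 4) : ℝ) * (N : ℝ) ^ 3 ≤
      ε / 2 * ((n.choose N : ℝ) * (N.choose 3 : ℝ)) := by
    have e2 : ((viol n x y z E).card : ℝ) * ((n - 4).choose (N - 4) : ℝ) * (N : ℝ) ^ 3 ≤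
        (ε / 2 * (N.choose 3 : ℝ) / ((N.choose 4 : ℝ) * (N : ℝ) ^ 3) * (n.choose 4 : ℝ)) *
          ((n - 4).choose (N - 4) : ℝ) * (N : ℝ) ^ 3 := by
      apply mul_le_mul_of_nonneg_right _ hNp.le
      exact mul_le_mul_of_nonneg_right hviol (by positivity)
    refine le_trans e2 (le_of_eq ?_)
    have e3 : (ε / 2 * (N.choose 3 : ℝ) / ((N.choose 4 : ℝ) * (N : ℝ) ^ 3) * (n.choose 4 : ℝ)) *
          ((n - 4).choose (N - 4) : ℝ) * (N : ℝ) ^ 3 =
        (ε / 2 * (N.choose 3 : ℝ) / ((N.choose 4 : ℝ) * (N : ℝ) ^ 3)) *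
          ((n.choose 4 : ℝ) * ((n - 4).choose (N - 4) : ℝ)) * (N : ℝ) ^ 3 := by ring
    rw [e3, ← i4]
    field_simp
  have e4 : (E.card : ℝ) * ((n - 3).choose (N - 3) : ℝ) ≤
      (v + ε) * (n.choose 3 : ℝ) * ((n - 3).choose (N - 3) : ℝ) := by
    calc (E.card : ℝ) * ((n - 3).choose (N - 3) : ℝ) ≤
          (n.choose N : ℝ) * ((v + ε / 2) * (N.choose 3 : ℝ)) +
            ε / 2 * ((n.choose N : ℝ) * (N.choose 3 : ℝ)) := by linarith
      _ = (v + ε) * ((n.choose N : ℝ) * (N.choose 3 : ℝ)) := by ring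
      _ = (v + ε) * (n.choose 3 : ℝ) * ((n - 3).choose (N - 3) : ℝ) := by
          rw [i3]
          ring
  exact le_of_mul_le_mul_right e4 d3

end Pool.Agent.H86.MT
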