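import Pool.Agent.H86.MT.Defs
import Pool.Agent.TH173.OE.Sharp

/-!
# Monotone 3-graphs: the classes with value `5 / 9`
-/

set_option autoImplicit false
open Finset

namespace Pool.Agent.H86.MT

open Pool.Agent.TH173.OE (num turan gr num_le num_balanced)

theorem turan_bounds (n : ℕ) : 2 / 27 * (n : ℝ) ^ 3 - (n : ℝ) ^ 2 ≤ (turan n : ℝ) ∧
    (turan n : ℝ) ≤ 2 / 27 * (n : ℝ) ^ 3 + (n : ℝ) ^ 2 := by
  obtain ⟨q, hq⟩ : ∃ q, n / 3 = q := ⟨_, rfl⟩
  have hq0 : (0 : ℝ) ≤ q := Nat.cast_nonneg q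
  have h3 : n % 3 = 0 ∨ n % 3 = 1 ∨ n % 3 = 2 := by omega
  rcases h3 with h | h | h
  · have hn : n = 3 * q := by omega
    have e : turan n = q * (q - 1) * (2 * q - 1) := by
      unfold turan
      rw [if_pos h, hq]
    rw [e]
    rcases Nat.eq_zero_or_pos q with h0 | h0
    · subst h0
      rw [hn]
      norm_num
    · have h1 : (1 : ℝ) ≤ q := by exact_mod_cast h0
      have h2 : (((q * (q - 1) * (2 * q - 1) : ℕ)) : ℝ) = (q : ℝ) * (q - 1) * (2 * q - 1) := by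
        push_cast [Nat.cast_sub (show 1 ≤ q from h0), Nat.cast_sub (show 1 ≤ 2 * q by omega)]
        ring
      rw [h2, hn]
      push_cast
      constructor <;> nlinarith
  · have hn : n = 3 * q + 1 := by omega
    have e : turan n = q ^ 2 * (2 * q - 1) := by
      unfold turan
      rw [if_neg (by omega), if_pos h, hq]
    rw [e]
    rcases Nat.eq_zero_or_pos q with h0 | h0
    · subst h0
      rw [hn]
      norm_num
    · have h1 : (1 : ℝ) ≤ q := by exact_mod_cast h0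
      have h2 : (((q ^ 2 * (2 * q - 1) : ℕ)) : ℝ) = (q : ℝ) ^ 2 * (2 * q - 1) := by
        push_cast [Nat.cast_sub (show 1 ≤ 2 * q by omega)]
        ring
      rw [h2, hn]
      push_cast
      constructor <;> nlinarith
  · have hn : n = 3 * q + 2 := by omega
    have e : turan n = q ^ 2 * (2 * q + 1) := by
      unfold turan
      rw [if_neg (by omega), if_neg (by omega), hq]
    rw [e, hn]
    push_cast
    constructor <;> nlinarith

/-- the triples `x < y < z < n` with `xy` an edge and not both of `xz`, `yz` edges -/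
def PP (g : ℕ → ℕ → Bool) (n : ℕ) : Finset (Σ _ : ℕ, Σ _ : ℕ, ℕ) :=
  (range n).sigma fun y => ((range y).filter fun x => g x y = true).sigma fun x =>
    (Ico (y + 1) n).filter fun z => ¬ (g x z = true ∧ g y z = true)

theorem card_PP (g : ℕ → ℕ → Bool) (n : ℕ) : (PP g n).card = num g n := by
  unfold PP
  rw [card_sigma]
  unfold num
  apply sum_congr rfl
  intro y _
  rw [card_sigma, sum_filter]

theorem mem_PP (g : ℕ → ℕ → Bool) (n x y z : ℕ) :
    (⟨y, ⟨x, z⟩⟩ : Σ _ : ℕ, Σ _ : ℕ, ℕ) ∈ PP g n ↔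
      x < y ∧ y < z ∧ z < n ∧ g x y = true ∧ ¬ (g x z = true ∧ g y z = true) := by
  unfold PP
  simp only [mem_sigma, mem_range, mem_filter, mem_Ico]
  constructor
  · rintro ⟨h1, ⟨h2, h3⟩, ⟨h4, h5⟩, h6⟩
    exact ⟨h2, by omega, h5, h3, h6⟩
  · rintro ⟨h1, h2, h3, h4, h5⟩
    exact ⟨by omega, ⟨h1, h4⟩, ⟨by omega, h3⟩, h5⟩

/-- the triples, as a 3-graph -/
def TE (g : ℕ → ℕ → Bool) (n : ℕ) : Finset (ℕ × ℕ × ℕ) :=
  (PP g n).image (fun p => (p.2.1, p.1, p.2.2))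

theorem mem_TE (g : ℕ → ℕ → Bool) (n x y z : ℕ) : (x, y, z) ∈ TE g n ↔
      x < y ∧ y < z ∧ z < n ∧ g x y = true ∧ ¬ (g x z = true ∧ g y z = true) := by
  rw [← mem_PP]
  unfold TE
  rw [mem_image]
  constructor
  · rintro ⟨⟨y', x', z'⟩, h, he⟩
    simp only [Prod.mk.injEq] at he
    obtain ⟨rfl, rfl, rfl⟩ := he
    exact h
  · intro h
    exact ⟨_, h, rfl⟩

theorem card_TE (g : ℕ → ℕ → Bool) (n : ℕ) : (TE g n).card = num g n := by
  rw [← card_PP]
  unfold TE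
  apply card_image_of_injective
  rintro ⟨y, x, z⟩ ⟨y', x', z'⟩ he
  simp only [Prod.mk.injEq] at he
  obtain ⟨rfl, rfl, rfl⟩ := he
  rfl

/-- signs `0, 0, +` -/
theorem u1 : Upper 0 0 SignType.pos (5 / 9) := by
  refine upper_of (by norm_num) fun ε hε => ⟨1, fun n E hE hK hM => ?_⟩
  classical
  set g : ℕ → ℕ → Bool := fun x y => decide (∃ c, (x, y, c) ∈ E) with hg
  have hgt : ∀ x y, g x y = true ↔ ∃ c, (x, y, c) ∈ E := by
    intro x y
    simp only [hg, decide_eq_true_eq]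
  have hz : ∀ a b c c' : ℕ, (a, b, c) ∈ E → c ≤ c' → c' < n → (a, b, c') ∈ E := by
    intro a b c c' h1 h2 h3
    rcases h2.eq_or_lt with h4 | h4
    · rwa [← h4]
    · have := hE _ _ _ h1
      exact hM.2.2 _ _ _ _ h1 (by omega) h3 h4
  have hsub : E ⊆ TE g n := by
    rintro ⟨x, y, z⟩ h
    obtain ⟨g1, g2, g3⟩ := hE _ _ _ h
    rw [mem_TE]
    refine ⟨g1, g2, g3, (hgt x y).2 ⟨z, h⟩, ?_⟩
    rintro ⟨h1, h2⟩
    rw [hgt] at h1 h2
    obtain ⟨c, h1⟩ := h1
    obtain ⟨c', h2⟩ := h2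
    obtain ⟨r1, r2, r3⟩ := hE _ _ _ h1
    obtain ⟨r4, r5, r6⟩ := hE _ _ _ h2
    have k1 := hz _ _ _ (max c c') h1 (le_max_left _ _) (by omega)
    have k2 := hz _ _ _ (max c c') h2 (le_max_right _ _) (by omega)
    have k3 := hz _ _ _ (max c c') h (by omega) (by omega)
    exact hK x y z _ h k3 k1 k2
  have h1 := card_le_card hsub
  rw [card_TE] at h1
  have h2 := num_le g n
  have h3 : E.card + turan n ≤ n.choose 3 := by omega
  have h4 : (E.card : ℝ) + (turan n : ℝ) ≤ (n.choose 3 : ℝ) := by exact_mod_cast h3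
  have h5 := (turan_bounds n).1
  have h6 := choose_le n
  have : 0 ≤ ε * (n : ℝ) ^ 3 := by positivity
  nlinarith

/-- signs `0, 0, +` -/
theorem l1 : Lower 0 0 SignType.pos (5 / 9) := by
  refine lower_of ⟨2, fun n => ⟨TE (gr (n / 3) ((n + 1) / 3)) n, ?_, ?_, ?_, ?_⟩⟩
  · intro a b c h
    rw [mem_TE] at h
    exact ⟨h.1, h.2.1, h.2.2.1⟩
  · intro a b c d h1 h2 h3 h4
    rw [mem_TE] at h1 h2 h3 h4
    exact h1.2.2.2.2 ⟨h3.2.2.2.1, h4.2.2.2.1⟩
  · refine ⟨fun a b c a' h1 h2 h3 => absurd h3 id, fun a b c b' h1 h2 h3 h4 => absurd h4 id,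
      fun a b c c' h1 h2 h3 h4 => ?_⟩
    change c < c' at h4
    rw [mem_TE] at h1 ⊢
    obtain ⟨g1, g2, g3, g4, g5⟩ := h1
    refine ⟨g1, h2, h3, g4, ?_⟩
    simp only [gr, Bool.or_eq_true, Bool.and_eq_true, decide_eq_true_eq] at g4 g5 ⊢
    omega
  · rw [card_TE]
    have h2 := num_balanced n
    have h4 : (num (gr (n / 3) ((n + 1) / 3)) n : ℝ) + (turan n : ℝ) = (n.choose 3 : ℝ) := by
      exact_mod_cast h2
    have h5 := (turan_bounds n).2
    have h6 := le_choose n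
    have : 0 ≤ (n : ℝ) ^ 2 := by positivity
    nlinarith

end Pool.Agent.H86.MT
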