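import Pool.Agent.H86.MT.Defs

/-!
# Monotone 3-graphs: upper bounds, first part
-/

set_option autoImplicit false
open Finset

namespace Pool.Agent.H86.MT

theorem two_pairs (s : Finset ℕ) :
    2 * ((s ×ˢ s).filter (fun p => p.1 < p.2)).card ≤ s.card ^ 2 := by
  have h : ((s ×ˢ s).filter (fun p => p.1 < p.2)).card =
      ((s ×ˢ s).filter (fun p => p.2 < p.1)).card := by
    apply card_bij (fun p _ => (p.2, p.1))
    · rintro ⟨a, b⟩ hp
      simp only [mem_filter, mem_product] at hp ⊢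
      tauto
    · rintro ⟨a, b⟩ _ ⟨c, d⟩ _ he
      simp only [Prod.mk.injEq] at he ⊢
      tauto
    · rintro ⟨a, b⟩ hp
      refine ⟨(b, a), ?_, rfl⟩
      simp only [mem_filter, mem_product] at hp ⊢
      tauto
  have hd : Disjoint ((s ×ˢ s).filter (fun p => p.1 < p.2))
      ((s ×ˢ s).filter (fun p => p.2 < p.1)) := by
    rw [disjoint_left]
    intro p h1 h2
    rw [mem_filter] at h1 h2
    omega
  have hu : ((s ×ˢ s).filter (fun p => p.1 < p.2)) ∪ ((s ×ˢ s).filter (fun p => p.2 < p.1)) ⊆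
      s ×ˢ s := union_subset (filter_subset _ _) (filter_subset _ _)
  have hc := card_le_card hu
  rw [card_union_of_disjoint hd, card_product] at hc
  rw [sq]
  omega

theorem card_le_sq {n : ℕ} {E : Finset (ℕ × ℕ × ℕ)} (f : ℕ × ℕ × ℕ → ℕ × ℕ)
    (h1 : ∀ t ∈ E, (f t).1 < n ∧ (f t).2 < n)
    (h2 : ∀ t ∈ E, ∀ t' ∈ E, f t = f t' → t = t') : (E.card : ℝ) ≤ (n : ℝ) ^ 2 := by
  have : E.card ≤ (range n ×ˢ range n).card := by
    apply card_le_card_of_injOn f
    · intro t ht
      have := h1 t (mem_coe.1 ht)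
      simp only [coe_product, Set.mem_prod, mem_coe, mem_range]
      exact this
    · intro t ht t' ht' he
      exact h2 t (mem_coe.1 ht) t' (mem_coe.1 ht') he
  rw [card_product, card_range] at this
  have h3 : (E.card : ℝ) ≤ ((n * n : ℕ) : ℝ) := by exact_mod_cast this
  rw [sq]
  push_cast at h3
  exact h3

/-- signs `0, -, -` -/
theorem u7a : Upper 0 SignType.neg SignType.neg 0 := by
  refine upper_of le_rfl fun ε hε => ⟨1, fun n E hE hK hM => ?_⟩
  have h0 : (E.card : ℝ) ≤ (n : ℝ) ^ 2 := by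
    refine card_le_sq (fun t => (t.2.1, t.2.2)) ?_ ?_
    · rintro ⟨a, b, c⟩ h
      have := hE _ _ _ h
      exact ⟨by simp only; omega, by simp only; omega⟩
    · rintro ⟨a, c, d⟩ h ⟨b, c', d'⟩ h' he
      simp only [Prod.mk.injEq] at he
      obtain ⟨rfl, rfl⟩ := he
      have key : ∀ a b : ℕ, a < b → (a, c, d) ∈ E → (b, c, d) ∈ E → False := by
        intro a b hab h1 h2
        obtain ⟨g1, g2, g3⟩ := hE _ _ _ h2
        have k1 : (a, b, d) ∈ E := hM.2.1 _ _ _ _ h1 hab (by omega) g1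
        have k2 : (a, b, c) ∈ E := hM.2.2 _ _ _ _ k1 g1 (by omega) g2
        exact hK a b c d k2 k1 h1 h2
      rcases lt_trichotomy a b with h3 | h3 | h3
      · exact (key a b h3 h h').elim
      · rw [h3]
      · exact (key b a h3 h' h).elim
  have : 0 ≤ (0 / 6 + ε) * (n : ℝ) ^ 3 := by positivity
  linarith

/-- signs `+, 0, -` -/
theorem u7b : Upper SignType.pos 0 SignType.neg 0 := by
  refine upper_of le_rfl fun ε hε => ⟨1, fun n E hE hK hM => ?_⟩
  have h0 : (E.card : ℝ) ≤ (n : ℝ) ^ 2 := by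
    refine card_le_sq (fun t => (t.1, t.2.2)) ?_ ?_
    · rintro ⟨a, b, c⟩ h
      have := hE _ _ _ h
      exact ⟨by simp only; omega, by simp only; omega⟩
    · rintro ⟨a, b, d⟩ h ⟨a', c, d'⟩ h' he
      simp only [Prod.mk.injEq] at he
      obtain ⟨rfl, rfl⟩ := he
      have key : ∀ b c : ℕ, b < c → (a, b, d) ∈ E → (a, c, d) ∈ E → False := by
        intro b c hbc h1 h2
        obtain ⟨g1, g2, g3⟩ := hE _ _ _ h1
        obtain ⟨g4, g5, g6⟩ := hE _ _ _ h2
        have k1 : (a, b, c) ∈ E := hM.2.2 _ _ _ _ h1 hbc (by omega) g5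
        have k2 : (b, c, d) ∈ E := hM.1 _ _ _ _ h2 hbc g1
        exact hK a b c d k1 h1 h2 k2
      rcases lt_trichotomy b c with h3 | h3 | h3
      · exact (key b c h3 h h').elim
      · rw [h3]
      · exact (key c b h3 h' h).elim
  have : 0 ≤ (0 / 6 + ε) * (n : ℝ) ^ 3 := by positivity
  linarith

/-- signs `0, +, +` -/
theorem u5 : Upper 0 SignType.pos SignType.pos (4 / 9) := by
  refine upper_of (by norm_num) fun ε hε => ⟨1, fun n E hE hK hM => ?_⟩
  have hy : ∀ a b c b' : ℕ, (a, b, c) ∈ E → b ≤ b' → b' < c → (a, b', c) ∈ E := by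
    intro a b c b' h1 h2 h3
    rcases h2.eq_or_lt with h4 | h4
    · rwa [← h4]
    · have := hE _ _ _ h1
      exact hM.2.1 _ _ _ _ h1 (by omega) h3 h4
  have hz : ∀ a b c c' : ℕ, (a, b, c) ∈ E → c ≤ c' → c' < n → (a, b, c') ∈ E := by
    intro a b c c' h1 h2 h3
    rcases h2.eq_or_lt with h4 | h4
    · rwa [← h4]
    · have := hE _ _ _ h1
      exact hM.2.2 _ _ _ _ h1 (by omega) h3 h4
  have cl1 : ∀ a b c c₁ d₁ : ℕ, (a, b, c) ∈ E → c + 1 < n → (b, c₁, d₁) ∉ E := by
    intro a b c c₁ d₁ h1 h2 h3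
    obtain ⟨g1, g2, g3⟩ := hE _ _ _ h1
    obtain ⟨g4, g5, g6⟩ := hE _ _ _ h3
    rcases le_total c c₁ with h4 | h4
    · have k1 := hz _ _ _ c₁ h1 h4 (by omega)
      have k2 := hz _ _ _ d₁ h1 (by omega) g6
      have k3 := hy _ _ _ c₁ k2 g4.le g5
      exact hK a b c₁ d₁ k1 k2 k3 h3
    · have k0 := hz _ _ _ (max d₁ (c + 1)) h3 (le_max_left _ _) (by omega)
      have k1 := hy _ _ _ c k0 h4 (by omega)
      have k2 := hz _ _ _ (max d₁ (c + 1)) h1 (by omega) (by omega)
      have k3 := hy _ _ _ c k2 g2.le (by omega)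
      exact hK a b c _ h1 k2 k3 k1
  set E1 := E.filter (fun t => t.2.2 + 1 < n) with hE1
  set E2 := E.filter (fun t => ¬ t.2.2 + 1 < n) with hE2
  have hsplit : E.card = E1.card + E2.card := (card_filter_add_card_filter_not _).symm
  have h2 : (E2.card : ℝ) ≤ (n : ℝ) ^ 2 := by
    refine card_le_sq (fun t => (t.1, t.2.1)) ?_ ?_
    · rintro ⟨a, b, c⟩ h
      have := hE _ _ _ (mem_filter.1 h).1
      exact ⟨by simp only; omega, by simp only; omega⟩
    · rintro ⟨a, b, c⟩ h ⟨a', b', c'⟩ h' he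
      simp only [Prod.mk.injEq] at he
      obtain ⟨rfl, rfl⟩ := he
      have g1 := hE _ _ _ (mem_filter.1 h).1
      have g2 := hE _ _ _ (mem_filter.1 h').1
      have g3 := (mem_filter.1 h).2
      have g4 := (mem_filter.1 h').2
      simp only at g3 g4
      have : c = c' := by omega
      rw [this]
  have h1 : (E1.card : ℝ) ≤ 2 / 27 * (n : ℝ) ^ 3 := by
    rcases E1.eq_empty_or_nonempty with he | hne
    · rw [he, card_empty]
      push_cast
      positivity
    · have hex : ∃ b, ∃ a c, (a, b, c) ∈ E ∧ c + 1 < n := by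
        obtain ⟨⟨a, b, c⟩, h⟩ := hne
        rw [hE1, mem_filter] at h
        exact ⟨b, a, c, h⟩
      classical
      obtain ⟨a₀, c₀, h0, h0'⟩ := Nat.find_spec hex
      set y := Nat.find hex with hy'
      have hyn : y ≤ n := by
        have := hE _ _ _ h0
        omega
      have hin : ∀ a b c : ℕ, (a, b, c) ∈ E1 → a < y ∧ y ≤ b ∧ b < c ∧ c < n := by
        intro a b c h
        rw [hE1, mem_filter] at h
        obtain ⟨h, hc⟩ := h
        simp only at hc
        obtain ⟨g1, g2, g3⟩ := hE _ _ _ h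
        refine ⟨?_, Nat.find_min' hex ⟨a, c, h, hc⟩, g2, g3⟩
        by_contra hcon
        rw [not_lt] at hcon
        have k1 := hz _ _ _ (max c₀ (a + 1)) h0 (le_max_left _ _) (by omega)
        have k2 := hy _ _ _ a k1 hcon (by omega)
        exact cl1 _ _ _ _ _ k2 (by omega) h
      have hc : E1.card ≤ (range y ×ˢ ((Ico y n ×ˢ Ico y n).filter (fun p => p.1 < p.2))).card := by
        apply card_le_card_of_injOn (fun t => t)
        · rintro ⟨a, b, c⟩ h
          have := hin a b c (mem_coe.1 h)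
          rw [mem_coe, mem_product, mem_filter, mem_product, mem_range, mem_Ico, mem_Ico]
          simp only
          omega
        · intro t _ t' _ h
          exact h
      rw [card_product, card_range] at hc
      have hp := two_pairs (Ico y n)
      rw [Nat.card_Ico] at hp
      set Q := ((Ico y n ×ˢ Ico y n).filter (fun p => p.1 < p.2)).card with hQ
      have hQ' : (2 : ℝ) * Q ≤ ((n : ℝ) - y) ^ 2 := by
        have : ((2 * Q : ℕ) : ℝ) ≤ (((n - y) ^ 2 : ℕ) : ℝ) := by exact_mod_cast hp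
        push_cast [Nat.cast_sub hyn] at this
        exact this
      have hc' : (E1.card : ℝ) ≤ (y : ℝ) * Q := by exact_mod_cast hc
      have hy0 : (0 : ℝ) ≤ y := Nat.cast_nonneg y
      have hyn' : (y : ℝ) ≤ n := by exact_mod_cast hyn
      have h3 : (y : ℝ) * (2 * Q) ≤ (y : ℝ) * ((n : ℝ) - y) ^ 2 := mul_le_mul_of_nonneg_left hQ' hy0
      have h4 : 0 ≤ ((n : ℝ) / 3 - y) ^ 2 * (4 * (n : ℝ) / 3 - y) :=
        mul_nonneg (sq_nonneg _) (by linarith)
      nlinarith
  have h3 : (E.card : ℝ) = E1.card + E2.card := by exact_mod_cast hsplit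
  have : 0 ≤ ε * (n : ℝ) ^ 3 := by positivity
  rw [h3]
  nlinarith

/-! ### Signs `-, 0, +` -/

/-- at most a third of the ordered pairs of arcs leave from a common vertex -/
theorem cyc (n : ℕ) (T : ℕ → ℕ → ℝ) (hTi : ∀ b x, T b x = 0 ∨ T b x = 1)
    (hTs : ∀ b x, T b x + T x b ≤ 1) :
    3 * ∑ b ∈ range n, (∑ x ∈ range n, T b x) ^ 2 ≤ (n : ℝ) ^ 3 := by
  have e0 : ∑ b ∈ range n, (∑ x ∈ range n, T b x) ^ 2 =
      ∑ b ∈ range n, ∑ x ∈ range n, ∑ y ∈ range n, T b x * T b y := by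
    refine sum_congr rfl fun b _ => ?_
    rw [sq, sum_mul_sum]
  have e1 : ∑ b ∈ range n, ∑ x ∈ range n, ∑ y ∈ range n, T b x * T b y =
      ∑ b ∈ range n, ∑ x ∈ range n, ∑ y ∈ range n, T x b * T x y := sum_comm
  have e2 : ∑ b ∈ range n, ∑ x ∈ range n, ∑ y ∈ range n, T b x * T b y =
      ∑ b ∈ range n, ∑ x ∈ range n, ∑ y ∈ range n, T y b * T y x :=
    sum_comm.trans (sum_congr rfl fun x _ => sum_comm)
  have e3 : 3 * ∑ b ∈ range n, (∑ x ∈ range n, T b x) ^ 2 =
      ∑ b ∈ range n, ∑ x ∈ range n, ∑ y ∈ range n,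
        (T b x * T b y + T x b * T x y + T y b * T y x) := by
    simp only [sum_add_distrib]
    rw [e0, ← e1, ← e2]
    ring
  rw [e3]
  have e4 : ∀ b x y : ℕ, T b x * T b y + T x b * T x y + T y b * T y x ≤ 1 := by
    intro b x y
    have h1 := hTs b x
    have h2 := hTs x y
    have h3 := hTs b y
    rcases hTi b x with a1 | a1 <;> rcases hTi x b with a2 | a2 <;>
      rcases hTi b y with a3 | a3 <;> rcases hTi y b with a4 | a4 <;>
      rcases hTi x y with a5 | a5 <;> rcases hTi y x with a6 | a6 <;>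
      rw [a1, a2] at h1 <;> rw [a5, a6] at h2 <;> rw [a3, a4] at h3 <;>
      rw [a1, a2, a3, a4, a5, a6] <;> linarith
  refine le_trans (sum_le_sum fun b _ => sum_le_sum fun x _ => sum_le_sum fun y _ => e4 b x y) ?_
  simp only [sum_const, card_range, nsmul_eq_mul]
  have : (n : ℝ) * ((n : ℝ) * ((n : ℝ) * 1)) = (n : ℝ) ^ 3 := by ring
  rw [this]

/-- signs `-, 0, +` -/
theorem u4 : Upper SignType.neg 0 SignType.pos (1 / 2) := by
  refine upper_of (by norm_num) fun ε hε => ⟨0, fun n E hE hK hM => ?_⟩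
  classical
  have hcl : ∀ x a b c : ℕ, (x, a, b) ∈ E → (a, b, c) ∈ E → False := by
    intro x a b c h1 h2
    obtain ⟨g1, g2, g3⟩ := hE _ _ _ h1
    obtain ⟨g4, g5, g6⟩ := hE _ _ _ h2
    have k1 : (x, a, c) ∈ E := hM.2.2 _ _ _ _ h1 (by omega) g6 g5
    have k2 : (x, b, c) ∈ E := hM.1 _ _ _ _ h2 (by omega) g1
    exact hK x a b c h1 k1 k2 h2
  set T : ℕ → ℕ → ℝ := fun b x =>
    if x < b then (if ∃ y, (y, x, b) ∈ E then 0 else 1)
    else if b < x then (if ∃ y, (y, b, x) ∈ E then 1 else 0) else 0 with hT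
  have hT01 : ∀ b x, 0 ≤ T b x ∧ T b x ≤ 1 := by
    intro b x
    simp only [hT]
    split_ifs <;> norm_num
  have hTs : ∀ b x, T b x + T x b ≤ 1 := by
    intro b x
    simp only [hT]
    split_ifs <;> first | omega | norm_num
  have hTi : ∀ b x, T b x = 0 ∨ T b x = 1 := by
    intro b x
    simp only [hT]
    split_ifs <;> norm_num
  -- the number of edges
  have hcard : (E.card : ℝ) ≤ ∑ b ∈ range n, (∑ a ∈ range b, T b a) * ∑ c ∈ Ico (b + 1) n, T b c := by
    have e1 : E.card = ∑ b ∈ range n, (E.filter (fun t => t.2.1 = b)).card := by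
      apply card_eq_sum_card_fiberwise
      rintro ⟨a, b, c⟩ h
      have := hE _ _ _ (mem_coe.1 h)
      rw [mem_coe, mem_range]
      simp only
      omega
    rw [e1]
    push_cast
    refine sum_le_sum fun b hb => ?_
    rw [sum_mul_sum, ← sum_product']
    have e2 : ((E.filter (fun t => t.2.1 = b)).card : ℝ) =
        ∑ t ∈ E.filter (fun t => t.2.1 = b), (1 : ℝ) := by simp
    rw [e2]
    have e3 : ∑ t ∈ E.filter (fun t => t.2.1 = b), (1 : ℝ) =
        ∑ p ∈ (E.filter (fun t => t.2.1 = b)).image (fun t => (t.1, t.2.2)), (1 : ℝ) := by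
      rw [sum_image]
      rintro ⟨a, b', c⟩ h ⟨a', b'', c'⟩ h' he
      rw [mem_coe, mem_filter] at h h'
      have q1 := h.2
      have q2 := h'.2
      simp only at q1 q2
      simp only [Prod.mk.injEq] at he ⊢
      exact ⟨he.1, by rw [q1, q2], he.2⟩
    rw [e3]
    refine le_trans (sum_le_sum (g := fun p => T b p.1 * T b p.2) ?_)
      (sum_le_sum_of_subset_of_nonneg ?_ ?_)
    · rintro ⟨a, c⟩ hp
      rw [mem_image] at hp
      obtain ⟨⟨a', b', c'⟩, h, he⟩ := hp
      rw [mem_filter] at h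
      obtain ⟨h, hb'⟩ := h
      simp only [Prod.mk.injEq] at he hb'
      obtain ⟨rfl, rfl⟩ := he
      subst hb'
      obtain ⟨g1, g2, g3⟩ := hE _ _ _ h
      have t1 : T b' a' = 1 := by
        simp only [hT]
        rw [if_pos g1, if_neg]
        rintro ⟨y, hy⟩
        exact hcl _ _ _ _ hy h
      have t2 : T b' c' = 1 := by
        simp only [hT]
        rw [if_neg (by omega), if_pos g2, if_pos ⟨a', h⟩]
      simp only [t1, t2]
      norm_num
    · rintro ⟨a, c⟩ hp
      rw [mem_image] at hp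
      obtain ⟨⟨a', b', c'⟩, h, he⟩ := hp
      rw [mem_filter] at h
      obtain ⟨h, hb'⟩ := h
      simp only [Prod.mk.injEq] at he hb'
      obtain ⟨rfl, rfl⟩ := he
      subst hb'
      obtain ⟨g1, g2, g3⟩ := hE _ _ _ h
      rw [mem_product, mem_range, mem_Ico]
      simp only
      omega
    · intro p _ _
      exact mul_nonneg (hT01 _ _).1 (hT01 _ _).1
  have hd : ∀ b ∈ range n, (∑ a ∈ range b, T b a) * ∑ c ∈ Ico (b + 1) n, T b c ≤
      1 / 4 * (∑ x ∈ range n, T b x) ^ 2 := by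
    intro b hb
    rw [mem_range] at hb
    have e : ∑ x ∈ range n, T b x = (∑ a ∈ range b, T b a) + ∑ c ∈ Ico (b + 1) n, T b c := by
      have e1 : ∑ x ∈ range n, T b x = (∑ a ∈ range (b + 1), T b a) + ∑ c ∈ Ico (b + 1) n, T b c :=
        (sum_range_add_sum_Ico _ (by omega)).symm
      rw [e1, sum_range_succ]
      have : T b b = 0 := by simp [hT]
      rw [this]
      ring
    rw [e]
    nlinarith [sq_nonneg ((∑ a ∈ range b, T b a) - ∑ c ∈ Ico (b + 1) n, T b c)]
  have hs := cyc n T hTi hTs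
  have h1 := le_trans hcard (sum_le_sum hd)
  rw [← mul_sum] at h1
  have : 0 ≤ ε * (n : ℝ) ^ 3 := by positivity
  nlinarith

end Pool.Agent.H86.MT
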