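import Pool.Agent.H86.MT.U1

/-!
# Monotone 3-graphs: upper bounds, second part
-/

set_option autoImplicit false
open Finset

namespace Pool.Agent.H86.MT

/-- Mantel's theorem for finite sets of increasing pairs -/
theorem mantel (c : ℕ) (G : Finset (ℕ × ℕ)) (h1 : ∀ x y, (x, y) ∈ G → x < y ∧ y < c)
    (h2 : ∀ x y z, (x, y) ∈ G → (x, z) ∈ G → (y, z) ∉ G) : 4 * G.card ≤ c ^ 2 := by
  classical
  set H : SimpleGraph (Fin c) := SimpleGraph.fromRel (fun i j => ((i : ℕ), (j : ℕ)) ∈ G) with hH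
  have hcf : H.CliqueFree (2 + 1) := by
    intro s hs
    rw [SimpleGraph.is3Clique_iff] at hs
    obtain ⟨a, b, d, hab, had, hbd, _⟩ := hs
    simp only [hH, SimpleGraph.fromRel_adj] at hab had hbd
    obtain ⟨_, hab⟩ := hab
    obtain ⟨_, had⟩ := had
    obtain ⟨_, hbd⟩ := hbd
    rcases hab with e1 | e1 <;> rcases had with e2 | e2 <;> rcases hbd with e3 | e3 <;>
      have q1 := h1 _ _ e1 <;> have q2 := h1 _ _ e2 <;> have q3 := h1 _ _ e3 <;>
      first
        | omega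
        | exact h2 _ _ _ e1 e2 e3
        | exact h2 _ _ _ e2 e1 e3
        | exact h2 _ _ _ e1 e3 e2
        | exact h2 _ _ _ e3 e1 e2
        | exact h2 _ _ _ e2 e3 e1
        | exact h2 _ _ _ e3 e2 e1
  have hle := hcf.card_edgeFinset_le
  simp only [Fintype.card_fin] at hle
  have hc : G.card ≤ H.edgeFinset.card := by
    have hG : ∀ p ∈ G, p.1 < c := by
      rintro ⟨x, y⟩ hp
      have := h1 _ _ hp
      simp only
      omega
    have : G.card = G.attach.card := (card_attach).symm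
    rw [this]
    apply card_le_card_of_injOn (fun p => s((⟨p.1.1, hG p.1 p.2⟩ : Fin c),
      (⟨p.1.2, (h1 p.1.1 p.1.2 p.2).2⟩ : Fin c)))
    · rintro ⟨⟨x, y⟩, hp⟩ _
      have hq := h1 x y hp
      simp only [mem_coe, SimpleGraph.mem_edgeFinset, SimpleGraph.mem_edgeSet, hH,
        SimpleGraph.fromRel_adj, ne_eq, Fin.mk.injEq]
      exact ⟨by omega, Or.inl hp⟩
    · rintro ⟨⟨x, y⟩, hp⟩ _ ⟨⟨x', y'⟩, hp'⟩ _ he
      have hq := h1 x y hp
      have hq' := h1 x' y' hp'
      simp only [Sym2.eq, Sym2.rel_iff', Prod.mk.injEq, Fin.mk.injEq, Prod.swap_prod_mk] at he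
      simp only [Subtype.mk.injEq, Prod.mk.injEq]
      omega
  have h3 : (c % 2).choose 2 = 0 := by
    rcases Nat.mod_two_eq_zero_or_one c with h | h <;> rw [h] <;> rfl
  rw [h3] at hle
  have h4 : (c ^ 2 - (c % 2) ^ 2) * (2 - 1) / (2 * 2) * 4 ≤ c ^ 2 := by
    have := Nat.div_mul_le_self ((c ^ 2 - (c % 2) ^ 2) * (2 - 1)) (2 * 2)
    have h5 : (c ^ 2 - (c % 2) ^ 2) * (2 - 1) ≤ c ^ 2 := by
      rw [show 2 - 1 = 1 from rfl, Nat.mul_one]
      exact Nat.sub_le _ _
    exact le_trans this h5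
  omega

theorem sum_sq_le (n : ℕ) : 3 * ∑ c ∈ range n, (c : ℝ) ^ 2 ≤ (n : ℝ) ^ 3 := by
  induction n with
  | zero => simp
  | succ n ih =>
    rw [sum_range_succ]
    push_cast
    have : (0 : ℝ) ≤ n := Nat.cast_nonneg n
    nlinarith

/-- signs `0, 0, -` -/
theorem u2 : Upper 0 0 SignType.neg (1 / 2) := by
  refine upper_of (by norm_num) fun ε hε => ⟨0, fun n E hE hK hM => ?_⟩
  have e1 : E.card = ∑ c ∈ range n, (E.filter (fun t => t.2.2 = c)).card := by
    apply card_eq_sum_card_fiberwise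
    rintro ⟨a, b, c⟩ h
    have := hE _ _ _ (mem_coe.1 h)
    rw [mem_coe, mem_range]
    simp only
    omega
  have e2 : ∀ c ∈ range n, ((E.filter (fun t => t.2.2 = c)).card : ℝ) ≤ 1 / 4 * (c : ℝ) ^ 2 := by
    intro c _
    set G : Finset (ℕ × ℕ) := (E.filter (fun t => t.2.2 = c)).image (fun t => (t.1, t.2.1)) with hG
    have hmem : ∀ x y, (x, y) ∈ G ↔ (x, y, c) ∈ E := by
      intro x y
      rw [hG, mem_image]
      constructor
      · rintro ⟨⟨a, b, c'⟩, h, he⟩
        rw [mem_filter] at h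
        obtain ⟨h, hc⟩ := h
        simp only [Prod.mk.injEq] at he hc
        obtain ⟨rfl, rfl⟩ := he
        rwa [← hc]
      · intro h
        exact ⟨(x, y, c), by rw [mem_filter]; exact ⟨h, rfl⟩, rfl⟩
    have hcard : (E.filter (fun t => t.2.2 = c)).card = G.card := by
      rw [hG, card_image_of_injOn]
      rintro ⟨a, b, c'⟩ h ⟨a', b', c''⟩ h' he
      rw [mem_coe, mem_filter] at h h'
      have q1 := h.2
      have q2 := h'.2
      simp only at q1 q2
      simp only [Prod.mk.injEq] at he ⊢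
      exact ⟨he.1, he.2, by rw [q1, q2]⟩
    have hm := mantel c G (fun x y h => by
      rw [hmem] at h
      have := hE _ _ _ h
      omega) (fun x y z h1 h2 h3 => by
      rw [hmem] at h1 h2 h3
      obtain ⟨g1, g2, g3⟩ := hE _ _ _ h1
      obtain ⟨g4, g5, g6⟩ := hE _ _ _ h3
      have k1 : (x, y, z) ∈ E := hM.2.2 _ _ _ _ h1 g4 (by omega) g5
      exact hK x y z c k1 h1 h2 h3)
    rw [hcard]
    have : (((4 * G.card : ℕ)) : ℝ) ≤ ((c ^ 2 : ℕ) : ℝ) := by exact_mod_cast hm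
    push_cast at this
    linarith
  have e3 : (E.card : ℝ) ≤ ∑ c ∈ range n, 1 / 4 * (c : ℝ) ^ 2 := by
    rw [e1]
    push_cast
    exact sum_le_sum e2
  rw [← mul_sum] at e3
  have := sum_sq_le n
  have : 0 ≤ ε * (n : ℝ) ^ 3 := by positivity
  nlinarith

end Pool.Agent.H86.MT
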