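import Pool.Agent.H86.MT.U2

/-!
# Monotone 3-graphs: upper bounds, third part
-/

set_option autoImplicit false
open Finset

namespace Pool.Agent.H86.MT

/-- signs `0, +, 0` -/
theorem u3 : Upper 0 SignType.pos 0 (1 / 2) := by
  refine upper_of (by norm_num) fun ε hε => ?_
  obtain ⟨K, hK0⟩ := exists_nat_ge (1 / ε)
  refine ⟨K, fun n E hE hK hM => ?_⟩
  have hKpos : 0 < (K : ℝ) := lt_of_lt_of_le (by positivity) hK0
  have hy : ∀ a b c b' : ℕ, (a, b, c) ∈ E → b ≤ b' → b' < c → (a, b', c) ∈ E := by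
    intro a b c b' h1 h2 h3
    rcases h2.eq_or_lt with h4 | h4
    · rwa [← h4]
    · have := hE _ _ _ h1
      exact hM.2.1 _ _ _ _ h1 (by omega) h3 h4
  set m : ℕ → ℕ → ℕ := fun b d => (E.filter (fun t => t.1 = b ∧ t.2.2 = d)).card with hm
  set E1 := E.filter (fun t => K ≤ m t.2.1 t.2.2) with hE1
  set F := E.filter (fun t => ¬ K ≤ m t.2.1 t.2.2) with hF
  set E2 := F.filter (fun t => ¬ K ≤ m t.1 t.2.2) with hE2
  set E3 := F.filter (fun t => K ≤ m t.1 t.2.2) with hE3
  have hs1 : E.card = E1.card + F.card := (card_filter_add_card_filter_not _).symm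
  have hs2 : F.card = E3.card + E2.card := (card_filter_add_card_filter_not _).symm
  -- first part
  have b1 : (K : ℝ) * (E1.card : ℝ) ≤ (n : ℝ) ^ 3 := by
    have c1 : K * E1.card ≤ ∑ t ∈ E1, m t.2.1 t.2.2 := by
      have : K * E1.card = ∑ t ∈ E1, K := by rw [sum_const, smul_eq_mul, mul_comm]
      rw [this]
      refine sum_le_sum fun t ht => ?_
      exact (mem_filter.1 ht).2
    have c2 : ∑ t ∈ E1, m t.2.1 t.2.2 =
        (E1.sigma (fun t => E.filter (fun s => s.1 = t.2.1 ∧ s.2.2 = t.2.2))).card :=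
      (card_sigma _ _).symm
    have c3 : (E1.sigma (fun t => E.filter (fun s => s.1 = t.2.1 ∧ s.2.2 = t.2.2))).card ≤
        (range n ×ˢ (range n ×ˢ range n)).card := by
      apply card_le_card_of_injOn (fun p => (p.1.1, p.1.2.1, p.2.2.1))
      · rintro ⟨⟨a, b, d⟩, ⟨b', c, d'⟩⟩ hp
        rw [mem_coe, mem_sigma, mem_filter, mem_filter] at hp
        obtain ⟨⟨h1, _⟩, h2, _⟩ := hp
        have q1 := hE _ _ _ h1
        have q2 := hE _ _ _ h2
        simp only [coe_product, Set.mem_prod, mem_coe, mem_range]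
        omega
      · rintro ⟨⟨a, b, d⟩, ⟨b₁, c, d₁⟩⟩ hp ⟨⟨a', b', d'⟩, ⟨b₁', c', d₁'⟩⟩ hp' he
        rw [mem_coe, mem_sigma, mem_filter, mem_filter] at hp hp'
        obtain ⟨⟨h1, _⟩, h2, h3, h4⟩ := hp
        obtain ⟨⟨h1', _⟩, h2', h3', h4'⟩ := hp'
        simp only at h1 h2 h3 h4 h1' h2' h3' h4'
        simp only [Prod.mk.injEq] at he
        obtain ⟨rfl, rfl, rfl⟩ := he
        replace h3 := h3.symm
        replace h4 := h4.symm
        replace h3' := h3'.symm
        replace h4' := h4'.symm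
        subst h3 h4 h3' h4'
        have key : ∀ d d' : ℕ, d < d' → (a, b, d) ∈ E → (b, c, d) ∈ E → (a, b, d') ∈ E →
            (b, c, d') ∈ E → False := by
          intro d d' hdd g1 g2 g3 g4
          obtain ⟨r1, r2, r3⟩ := hE _ _ _ g1
          obtain ⟨r4, r5, r6⟩ := hE _ _ _ g2
          have k1 := hy _ _ _ d g3 (by omega) hdd
          have k2 := hy _ _ _ d g4 (by omega) hdd
          exact hK a b d d' g1 g3 k1 k2
        rcases lt_trichotomy d d' with h | h | h
        · exact (key _ _ h h1 h2 h1' h2').elim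
        · subst h
          rfl
        · exact (key _ _ h h1' h2' h1 h2).elim
    rw [card_product, card_product, card_range] at c3
    have c4 : K * E1.card ≤ n * (n * n) := by omega
    have : ((K * E1.card : ℕ) : ℝ) ≤ ((n * (n * n) : ℕ) : ℝ) := by exact_mod_cast c4
    push_cast at this
    nlinarith
  -- second part
  have b2 : (E2.card : ℝ) ≤ K * (n : ℝ) ^ 2 := by
    have c1 : E2.card ≤ K * (E2.image (fun t => (t.1, t.2.2))).card := by
      apply card_le_mul_card_image
      rintro ⟨a, d⟩ hp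
      rw [mem_image] at hp
      obtain ⟨⟨a', b, d'⟩, h, he⟩ := hp
      simp only [Prod.mk.injEq] at he
      obtain ⟨rfl, rfl⟩ := he
      have q := (mem_filter.1 h).2
      simp only [not_le] at q
      refine le_trans (card_le_card ?_) q.le
      intro t ht
      rw [mem_filter] at ht
      obtain ⟨ht, he⟩ := ht
      simp only [Prod.mk.injEq] at he
      rw [mem_filter]
      exact ⟨(mem_filter.1 (mem_filter.1 ht).1).1, he⟩
    have c2 : (E2.image (fun t => (t.1, t.2.2))).card ≤ (range n ×ˢ range n).card := by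
      apply card_le_card
      rintro ⟨a, d⟩ hp
      rw [mem_image] at hp
      obtain ⟨⟨a', b, d'⟩, h, he⟩ := hp
      simp only [Prod.mk.injEq] at he
      obtain ⟨rfl, rfl⟩ := he
      have q := hE _ _ _ (mem_filter.1 (mem_filter.1 h).1).1
      rw [mem_product, mem_range, mem_range]
      simp only
      omega
    rw [card_product, card_range] at c2
    have c3 : E2.card ≤ K * (n * n) := le_trans c1 (Nat.mul_le_mul_left _ c2)
    have : ((E2.card : ℕ) : ℝ) ≤ ((K * (n * n) : ℕ) : ℝ) := by exact_mod_cast c3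
    push_cast at this
    nlinarith
  -- third part
  have b3 : (E3.card : ℝ) ≤ ∑ d ∈ range n, 1 / 4 * (d : ℝ) ^ 2 := by
    have e1 : E3.card = ∑ d ∈ range n, (E3.filter (fun t => t.2.2 = d)).card := by
      apply card_eq_sum_card_fiberwise
      rintro ⟨a, b, c⟩ h
      have := hE _ _ _ (mem_filter.1 (mem_filter.1 (mem_coe.1 h)).1).1
      rw [mem_coe, mem_range]
      simp only
      omega
    rw [e1]
    push_cast
    refine sum_le_sum fun d _ => ?_
    set A := (range d).filter (fun a => K ≤ m a d) with hA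
    set B := (range d).filter (fun a => ¬ K ≤ m a d) with hB
    have hAB : A.card + B.card = d := by
      have := card_filter_add_card_filter_not (s := range d) (fun a => K ≤ m a d)
      rw [card_range] at this
      exact this
    have hc : (E3.filter (fun t => t.2.2 = d)).card ≤ (A ×ˢ B).card := by
      apply card_le_card_of_injOn (fun t => (t.1, t.2.1))
      · rintro ⟨a, b, d'⟩ h
        rw [mem_coe, mem_filter, mem_filter, mem_filter] at h
        obtain ⟨⟨⟨h1, h2⟩, h3⟩, h4⟩ := h
        simp only at h2 h3 h4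
        subst h4
        have q := hE _ _ _ h1
        rw [mem_coe, mem_product, hA, hB, mem_filter, mem_filter, mem_range, mem_range]
        exact ⟨⟨by simp only; omega, h3⟩, ⟨by simp only; omega, h2⟩⟩
      · rintro ⟨a, b, d₁⟩ h ⟨a', b', d₂⟩ h' he
        rw [mem_coe, mem_filter] at h h'
        have q1 := h.2
        have q2 := h'.2
        simp only at q1 q2
        simp only [Prod.mk.injEq] at he ⊢
        exact ⟨he.1, he.2, by rw [q1, q2]⟩
    rw [card_product] at hc
    have h1 : ((E3.filter (fun t => t.2.2 = d)).card : ℝ) ≤ (A.card : ℝ) * (B.card : ℝ) := by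
      exact_mod_cast hc
    have h2 : (A.card : ℝ) + (B.card : ℝ) = d := by exact_mod_cast hAB
    rw [← h2]
    nlinarith [sq_nonneg ((A.card : ℝ) - (B.card : ℝ))]
  rw [← mul_sum] at b3
  have b4 := sum_sq_le n
  have b5 : (E1.card : ℝ) ≤ ε * (n : ℝ) ^ 3 := by
    have h1 : 1 ≤ (K : ℝ) * ε := by
      rwa [div_le_iff₀ hε] at hK0
    have h2 : (E1.card : ℝ) * 1 ≤ (E1.card : ℝ) * ((K : ℝ) * ε) :=
      mul_le_mul_of_nonneg_left h1 (Nat.cast_nonneg _)
    nlinarith
  have hs : (E.card : ℝ) = E1.card + (E3.card + E2.card) := by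
    rw [hs1, hs2]
    push_cast
    ring
  rw [hs]
  nlinarith

end Pool.Agent.H86.MT
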