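import Pool.Agent.H86.MT.U3

/-!
# Monotone 3-graphs: upper bounds, the classes with value `2 √3 - 3`
-/

set_option autoImplicit false
open Finset

namespace Pool.Agent.H86.MT

/-- the weight of the vertices below `m b` -/
noncomputable def wA (w : ℕ → ℝ) (m : ℕ → ℕ) (b : ℕ) : ℝ := ∑ a ∈ range (m b), w a

/-- the weighted number of edges -/
noncomputable def wF (n : ℕ) (w : ℕ → ℝ) (m : ℕ → ℕ) : ℝ :=
  ∑ d ∈ range n, w d * (∑ b ∈ Ico (m d) d, w b * wA w m b + w d * wA w m d / 2)

theorem pair_le (w A : ℕ → ℝ) (hw : ∀ x, 0 ≤ w x) (hA : Monotone A) (τ k : ℕ) :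
    ∑ d ∈ Ico τ (τ + k), w d * (∑ b ∈ Ico τ d, w b * A b + w d * A d / 2) ≤
      1 / 2 * (∑ d ∈ Ico τ (τ + k), w d) * ∑ d ∈ Ico τ (τ + k), w d * A d := by
  induction k with
  | zero => simp
  | succ k ih =>
    rw [← add_assoc, sum_Ico_succ_top (by omega), sum_Ico_succ_top (by omega),
      sum_Ico_succ_top (by omega)]
    set Q := ∑ b ∈ Ico τ (τ + k), w b * A b with hQ
    set S := ∑ b ∈ Ico τ (τ + k), w b with hS
    have h1 : Q ≤ S * A (τ + k) := by
      rw [hQ, hS, sum_mul]
      refine sum_le_sum fun b hb => ?_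
      rw [mem_Ico] at hb
      exact mul_le_mul_of_nonneg_left (hA (by omega)) (hw b)
    have h2 : 0 ≤ w (τ + k) * (S * A (τ + k) - Q) := mul_nonneg (hw _) (by linarith)
    nlinarith

theorem wA_mono {w : ℕ → ℝ} {m : ℕ → ℕ} (hw : ∀ x, 0 ≤ w x) (hm : Monotone m) :
    Monotone (wA w m) := by
  intro x y hxy
  unfold wA
  apply sum_le_sum_of_subset_of_nonneg
  · intro a ha
    rw [mem_range] at ha ⊢
    exact lt_of_lt_of_le ha (hm hxy)
  · intro a _ _
    exact hw a

theorem wF_le {κ : ℝ} (hk : 12 * κ ^ 2 + 12 * κ = 1) (hk0 : 0 < κ) (n : ℕ) :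
    ∀ (w : ℕ → ℝ) (m : ℕ → ℕ), (∀ x, 0 ≤ w x) → Monotone m → (∀ x, m x ≤ x) →
      wF n w m ≤ κ * (∑ x ∈ range n, w x) ^ 3 := by
  induction n using Nat.strong_induction_on with
  | _ N ih =>
    intro w m hw hm hmx
    rcases N with _ | n
    · simp [wF]
    · rcases (hmx n).eq_or_lt with hτ | hτ
      · -- the last vertex is in no pair
        have h1 := ih n (by omega) w m hw hm hmx
        have h2 : wF (n + 1) w m = wF n w m + w n * (w n * (∑ x ∈ range n, w x) / 2) := by
          unfold wF
          rw [sum_range_succ, hτ, Ico_self, sum_empty, zero_add]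
          unfold wA
          rw [hτ]
        rw [h2, sum_range_succ]
        set W := ∑ x ∈ range n, w x with hW
        have hW0 : 0 ≤ W := sum_nonneg fun x _ => hw x
        have hwn := hw n
        set v := w n with hv
        have h3 : 0 ≤ 12 * κ * (3 * κ * W ^ 2 + (3 * κ - 1 / 2) * (W * v) + κ * v ^ 2) := by
          have : 12 * κ * (3 * κ * W ^ 2 + (3 * κ - 1 / 2) * (W * v) + κ * v ^ 2) =
              (6 * κ * W + (3 * κ - 1 / 2) * v) ^ 2 +
                (12 * κ ^ 2 + 12 * κ - 1) / 4 * v ^ 2 := by ring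
          rw [this, hk]
          nlinarith [sq_nonneg (6 * κ * W + (3 * κ - 1 / 2) * v)]
        have h4 : 0 ≤ 3 * κ * W ^ 2 + (3 * κ - 1 / 2) * (W * v) + κ * v ^ 2 :=
          nonneg_of_mul_nonneg_right h3 (by positivity)
        have h5 := mul_nonneg hwn h4
        nlinarith
      · -- merging of the last clique
        set τ := m n with hτd
        obtain ⟨k, hk'⟩ : ∃ k, n + 1 = τ + k := ⟨n + 1 - τ, by omega⟩
        have hC : ∀ d ∈ Ico τ (n + 1), m d ≤ τ := by
          intro d hd
          rw [mem_Ico] at hd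
          exact hm (by omega)
        set A := wA w m with hA
        have hAm : Monotone A := wA_mono hw hm
        set S := ∑ d ∈ Ico τ (n + 1), w d with hS
        have hS0 : 0 ≤ S := sum_nonneg fun x _ => hw x
        set l : ℕ → ℝ := fun d => ∑ b ∈ Ico (m d) τ, w b * A b with hl
        obtain ⟨v, hv, hmax⟩ := exists_max_image (Ico τ (n + 1))
          (fun i => l i + 1 / 2 * S * A i) ⟨τ, by rw [mem_Ico]; omega⟩
        rw [mem_Ico] at hv
        -- the first bound
        have h1 : wF (n + 1) w m ≤ wF τ w m + S * (l v + 1 / 2 * S * A v) := by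
          have e1 : wF (n + 1) w m = wF τ w m + ∑ d ∈ Ico τ (n + 1),
              w d * (∑ b ∈ Ico (m d) d, w b * A b + w d * A d / 2) := by
            unfold wF
            rw [← sum_range_add_sum_Ico _ (show τ ≤ n + 1 by omega)]
          have e2 : ∑ d ∈ Ico τ (n + 1), w d * (∑ b ∈ Ico (m d) d, w b * A b + w d * A d / 2) =
              ∑ d ∈ Ico τ (n + 1), w d * l d +
                ∑ d ∈ Ico τ (n + 1), w d * (∑ b ∈ Ico τ d, w b * A b + w d * A d / 2) := by
            rw [← sum_add_distrib]
            refine sum_congr rfl fun d hd => ?_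
            have h3 := hC d hd
            rw [mem_Ico] at hd
            rw [← sum_Ico_consecutive _ h3 hd.1]
            ring
          have e3 := pair_le w A hw hAm τ k
          rw [← hk'] at e3
          have e4 : ∑ d ∈ Ico τ (n + 1), w d * (l d + 1 / 2 * S * A d) ≤
              S * (l v + 1 / 2 * S * A v) := by
            rw [hS, sum_mul]
            refine sum_le_sum fun d hd => ?_
            exact mul_le_mul_of_nonneg_left (hmax d hd) (hw d)
          have e5 : ∑ d ∈ Ico τ (n + 1), w d * (l d + 1 / 2 * S * A d) =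
              ∑ d ∈ Ico τ (n + 1), w d * l d + 1 / 2 * S * ∑ d ∈ Ico τ (n + 1), w d * A d := by
            have e6 := mul_sum (Ico τ (n + 1)) (fun d => w d * A d) (1 / 2 * S)
            rw [e6, ← sum_add_distrib]
            refine sum_congr rfl fun d _ => ?_
            ring
          rw [e1, e2]
          linarith
        -- the merged weights
        set w' : ℕ → ℝ := fun x => if x < τ then w x else S with hw'
        set m' : ℕ → ℕ := fun x => if x < τ then m x else m v with hm'
        have hvτ : m v ≤ τ := hC v (by rw [mem_Ico]; exact hv)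
        have g1 : ∀ x, 0 ≤ w' x := by
          intro x
          simp only [hw']
          split_ifs
          · exact hw x
          · exact hS0
        have g2 : Monotone m' := by
          intro x y hxy
          simp only [hm']
          split_ifs
          · exact hm hxy
          · exact hm (by omega)
          · omega
          · exact le_rfl
        have g3 : ∀ x, m' x ≤ x := by
          intro x
          simp only [hm']
          split_ifs
          · exact hmx x
          · omega
        have g4 := ih (τ + 1) (by omega) w' m' g1 g2 g3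
        have f1 : ∀ j ≤ τ, ∑ x ∈ range j, w' x = ∑ x ∈ range j, w x := by
          intro j hj
          refine sum_congr rfl fun x hx => ?_
          rw [mem_range] at hx
          simp only [hw']
          rw [if_pos (by omega)]
        have f2 : ∀ b < τ, wA w' m' b = A b := by
          intro b hb
          have : m' b = m b := by
            simp only [hm']
            rw [if_pos hb]
          rw [hA]
          unfold wA
          rw [this]
          exact f1 _ (le_trans (hmx b) hb.le)
        have f3 : wA w' m' τ = A v := by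
          have : m' τ = m v := by
            simp only [hm']
            rw [if_neg (lt_irrefl _)]
          rw [hA]
          unfold wA
          rw [this]
          exact f1 _ hvτ
        have f4 : w' τ = S := by
          simp only [hw']
          rw [if_neg (lt_irrefl _)]
        have f5 : m' τ = m v := by
          simp only [hm']
          rw [if_neg (lt_irrefl _)]
        have f6 : ∀ x < τ, w' x = w x := by
          intro x hx
          simp only [hw']
          rw [if_pos hx]
        have f7 : wF (τ + 1) w' m' = wF τ w m + S * (l v + 1 / 2 * S * A v) := by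
          unfold wF
          rw [sum_range_succ, f4, f5, f3]
          have q1 : ∑ d ∈ range τ, w' d * (∑ b ∈ Ico (m' d) d, w' b * wA w' m' b +
              w' d * wA w' m' d / 2) = ∑ d ∈ range τ, w d * (∑ b ∈ Ico (m d) d, w b * wA w m b +
              w d * wA w m d / 2) := by
            refine sum_congr rfl fun d hd => ?_
            rw [mem_range] at hd
            have r1 : m' d = m d := by
              simp only [hm']
              rw [if_pos hd]
            have r2 : ∑ b ∈ Ico (m d) d, w' b * wA w' m' b = ∑ b ∈ Ico (m d) d, w b * wA w m b := by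
              refine sum_congr rfl fun b hb => ?_
              rw [mem_Ico] at hb
              rw [f6 b (by omega), f2 b (by omega)]
            rw [r1, r2, f6 d hd, f2 d hd]
          have q2 : ∑ b ∈ Ico (m v) τ, w' b * wA w' m' b = l v := by
            simp only [hl]
            refine sum_congr rfl fun b hb => ?_
            rw [mem_Ico] at hb
            rw [f6 b (by omega), f2 b (by omega)]
          rw [q1, q2]
          ring
        have f8 : ∑ x ∈ range (τ + 1), w' x = ∑ x ∈ range (n + 1), w x := by
          rw [sum_range_succ, f4, f1 τ le_rfl, hS, sum_range_add_sum_Ico _ (by omega)]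
        rw [f8] at g4
        rw [f7] at g4
        exact le_trans h1 g4

/-- the constant -/
noncomputable def κ₀ : ℝ := (2 * Real.sqrt 3 - 3) / 6

theorem κ₀_eq : 12 * κ₀ ^ 2 + 12 * κ₀ = 1 := by
  unfold κ₀
  have h : Real.sqrt 3 ^ 2 = 3 := Real.sq_sqrt (by norm_num)
  nlinarith

theorem κ₀_pos : 0 < κ₀ := by
  unfold κ₀
  have h : (3 / 2 : ℝ) < Real.sqrt 3 := by
    apply Real.lt_sqrt_of_sq_lt
    norm_num
  linarith

theorem six_bound {n : ℕ} {E : Finset (ℕ × ℕ × ℕ)} (hE : IsGraph n E) (M : ℕ → ℕ)
    (hM : Monotone M) (hMx : ∀ x, M x ≤ x)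
    (h : ∀ a b d, (a, b, d) ∈ E → a < M (b + 1) ∧ M d ≤ b) :
    (E.card : ℝ) ≤ κ₀ * (n : ℝ) ^ 3 + (n : ℝ) ^ 2 := by
  set E1 := E.filter (fun t => t.1 < M t.2.1) with hE1
  set E2 := E.filter (fun t => ¬ t.1 < M t.2.1) with hE2
  have hs : E.card = E1.card + E2.card := (card_filter_add_card_filter_not _).symm
  have h2 : (E2.card : ℝ) ≤ (n : ℝ) ^ 2 := by
    refine card_le_sq (fun t => (t.1, t.2.2)) ?_ ?_
    · rintro ⟨a, b, c⟩ h
      have := hE _ _ _ (mem_filter.1 h).1
      exact ⟨by simp only; omega, by simp only; omega⟩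
    · rintro ⟨a, b, c⟩ h' ⟨a', b', c'⟩ h'' he
      rw [hE2, mem_filter] at h' h''
      obtain ⟨p1, p2⟩ := h'
      obtain ⟨p3, p4⟩ := h''
      simp only [Prod.mk.injEq] at he
      obtain ⟨rfl, rfl⟩ := he
      have q1 := (h _ _ _ p1).1
      have q2 := (h _ _ _ p3).1
      simp only [not_lt] at p2 p4
      have : b = b' := by
        rcases lt_trichotomy b b' with r | r | r
        · have := hM (show b + 1 ≤ b' by omega)
          omega
        · exact r
        · have := hM (show b' + 1 ≤ b by omega)
          omega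
      rw [this]
  have h1 : (E1.card : ℝ) ≤ κ₀ * (n : ℝ) ^ 3 := by
    have c1 : E1.card ≤ ((range n).sigma (fun d => (Ico (M d) d).sigma (fun b => range (M b)))).card := by
      apply card_le_card_of_injOn (fun t => ⟨t.2.2, ⟨t.2.1, t.1⟩⟩)
      · rintro ⟨a, b, d⟩ ht
        rw [mem_coe, hE1, mem_filter] at ht
        obtain ⟨p1, p2⟩ := ht
        simp only at p2
        have q1 := (h _ _ _ p1).2
        have q2 := hE _ _ _ p1
        rw [mem_coe, mem_sigma, mem_sigma, mem_range, mem_Ico, mem_range]
        exact ⟨by simp only; omega, ⟨by simp only; omega, by simp only; omega⟩, p2⟩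
      · rintro ⟨a, b, d⟩ _ ⟨a', b', d'⟩ _ he
        simp only [Sigma.mk.injEq, heq_eq_eq] at he
        simp only [Prod.mk.injEq]
        tauto
    rw [card_sigma] at c1
    have c2 : ((E1.card : ℕ) : ℝ) ≤
        ((∑ d ∈ range n, ((Ico (M d) d).sigma (fun b => range (M b))).card : ℕ) : ℝ) := by
      exact_mod_cast c1
    have c3 : ((∑ d ∈ range n, ((Ico (M d) d).sigma (fun b => range (M b))).card : ℕ) : ℝ) ≤
        wF n (fun _ => 1) M := by
      unfold wF
      push_cast
      refine sum_le_sum fun d _ => ?_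
      rw [card_sigma]
      have : (((∑ b ∈ Ico (M d) d, (range (M b)).card : ℕ)) : ℝ) =
          ∑ b ∈ Ico (M d) d, 1 * wA (fun _ => (1 : ℝ)) M b := by
        push_cast
        refine sum_congr rfl fun b _ => ?_
        simp [wA]
      rw [this]
      have h0 : 0 ≤ wA (fun _ => (1 : ℝ)) M d := by
        unfold wA
        exact sum_nonneg fun _ _ => by norm_num
      linarith
    have c4 := wF_le κ₀_eq κ₀_pos n (fun _ => 1) M (fun _ => by norm_num) hM hMx
    have c5 : ∑ x ∈ range n, (1 : ℝ) = n := by simp
    rw [c5] at c4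
    exact le_trans c2 (le_trans c3 c4)
  have : (E.card : ℝ) = E1.card + E2.card := by exact_mod_cast hs
  rw [this]
  linarith

theorem val_six : (2 * Real.sqrt 3 - 3) / 6 = κ₀ := rfl

theorem val_six_nonneg : 0 ≤ 2 * Real.sqrt 3 - 3 := by
  have := κ₀_pos
  unfold κ₀ at this
  linarith

/-- signs `0, +, -` -/
theorem u6b : Upper 0 SignType.pos SignType.neg (2 * Real.sqrt 3 - 3) := by
  refine upper_of val_six_nonneg fun ε hε => ⟨1, fun n E hE hK hM => ?_⟩
  classical
  have hy : ∀ a b c b' : ℕ, (a, b, c) ∈ E → b ≤ b' → b' < c → (a, b', c) ∈ E := by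
    intro a b c b' h1 h2 h3
    rcases h2.eq_or_lt with h4 | h4
    · rwa [← h4]
    · have := hE _ _ _ h1
      exact hM.2.1 _ _ _ _ h1 (by omega) h3 h4
  have hz : ∀ a b c c' : ℕ, (a, b, c) ∈ E → b < c' → c' ≤ c → (a, b, c') ∈ E := by
    intro a b c c' h1 h2 h3
    rcases h3.eq_or_lt with h4 | h4
    · rwa [h4]
    · have := hE _ _ _ h1
      exact hM.2.2 _ _ _ _ h1 h2 (by omega) h4
  set β : ℕ → ℕ := fun d => if h : ∃ b, ∃ a, (a, b, d) ∈ E then Nat.find h else 0 with hβ
  have hβle : ∀ a b d, (a, b, d) ∈ E → β d ≤ b := by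
    intro a b d h
    have hex : ∃ b, ∃ a, (a, b, d) ∈ E := ⟨b, a, h⟩
    simp only [hβ]
    rw [dif_pos hex]
    exact Nat.find_min' hex ⟨a, h⟩
  have hβex : ∀ a b d, (a, b, d) ∈ E → ∃ a', (a', β d, d) ∈ E := by
    intro a b d h
    have hex : ∃ b, ∃ a, (a, b, d) ∈ E := ⟨b, a, h⟩
    simp only [hβ]
    rw [dif_pos hex]
    exact Nat.find_spec hex
  have hβd : ∀ d, β d ≤ d := by
    intro d
    by_cases hex : ∃ b, ∃ a, (a, b, d) ∈ E
    · obtain ⟨b, a, h⟩ := hex
      have := hβle _ _ _ h
      have := hE _ _ _ h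
      omega
    · simp only [hβ]
      rw [dif_neg hex]
      omega
  set M : ℕ → ℕ := fun d => (range (d + 1)).sup β with hMdef
  have hMm : Monotone M := by
    intro x y hxy
    simp only [hMdef]
    exact sup_mono (range_subset_range.2 (by omega))
  have hMx : ∀ x, M x ≤ x := by
    intro x
    simp only [hMdef]
    refine Finset.sup_le fun d hd => ?_
    rw [mem_range] at hd
    have := hβd d
    omega
  have hmain : ∀ a b d, (a, b, d) ∈ E → a < M (b + 1) ∧ M d ≤ b := by
    intro a b d h
    obtain ⟨g1, g2, g3⟩ := hE _ _ _ h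
    constructor
    · have h1 : (a, b, b + 1) ∈ E := hz _ _ _ _ h (by omega) (by omega)
      have h2 : a < β (b + 1) := by
        by_contra hcon
        rw [not_lt] at hcon
        obtain ⟨a', h3⟩ := hβex _ _ _ h1
        obtain ⟨r1, r2, r3⟩ := hE _ _ _ h3
        have k1 := hy _ _ _ a h3 hcon (by omega)
        have k2 := hy _ _ _ b h3 (by omega) (by omega)
        have k3 := hz _ _ _ b k1 (by omega) (by omega)
        exact hK a' a b (b + 1) k3 k1 k2 h1
      refine lt_of_lt_of_le h2 ?_
      simp only [hMdef]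
      exact le_sup (f := β) (mem_range.2 (by omega))
    · simp only [hMdef]
      refine Finset.sup_le fun d' hd' => ?_
      rw [mem_range] at hd'
      rcases le_or_gt d' b with h1 | h1
      · exact le_trans (hβd d') h1
      · exact hβle _ _ _ (hz _ _ _ d' h h1 (by omega))
  have hfin := six_bound hE M hMm hMx hmain
  rw [val_six]
  have : 0 ≤ ε * (n : ℝ) ^ 3 := by positivity
  nlinarith

/-- signs `-, 0, -` -/
theorem u6a : Upper SignType.neg 0 SignType.neg (2 * Real.sqrt 3 - 3) := by
  refine upper_of val_six_nonneg fun ε hε => ⟨1, fun n E hE hK hM => ?_⟩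
  classical
  have hx : ∀ a b c a' : ℕ, (a, b, c) ∈ E → a' ≤ a → (a', b, c) ∈ E := by
    intro a b c a' h1 h2
    rcases h2.eq_or_lt with h4 | h4
    · rwa [h4]
    · have := hE _ _ _ h1
      exact hM.1 _ _ _ _ h1 (by omega) h4
  have hz : ∀ a b c c' : ℕ, (a, b, c) ∈ E → b < c' → c' ≤ c → (a, b, c') ∈ E := by
    intro a b c c' h1 h2 h3
    rcases h3.eq_or_lt with h4 | h4
    · rwa [h4]
    · have := hE _ _ _ h1
      exact hM.2.2 _ _ _ _ h1 h2 (by omega) h4
  set α : ℕ → ℕ := fun d => (E.filter (fun t => t.2.2 = d)).sup (fun t => t.1 + 1) with hα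
  have hαle : ∀ a b d, (a, b, d) ∈ E → a < α d := by
    intro a b d h
    simp only [hα]
    have hmem : (a, b, d) ∈ E.filter (fun t => t.2.2 = d) := mem_filter.2 ⟨h, rfl⟩
    exact Nat.lt_of_succ_le (le_sup (f := fun t : ℕ × ℕ × ℕ => t.1 + 1) hmem)
  have hαd : ∀ d, α d ≤ d := by
    intro d
    simp only [hα]
    refine Finset.sup_le ?_
    rintro ⟨a, b, c⟩ h
    rw [mem_filter] at h
    obtain ⟨h, h'⟩ := h
    have := hE _ _ _ h
    simp only at h' ⊢
    omega
  set M : ℕ → ℕ := fun d => (range (d + 1)).sup α with hMdef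
  have hMm : Monotone M := by
    intro x y hxy
    simp only [hMdef]
    exact sup_mono (range_subset_range.2 (by omega))
  have hMx : ∀ x, M x ≤ x := by
    intro x
    simp only [hMdef]
    refine Finset.sup_le fun d hd => ?_
    rw [mem_range] at hd
    have := hαd d
    omega
  have hmain : ∀ a b d, (a, b, d) ∈ E → a < M (b + 1) ∧ M d ≤ b := by
    intro a b d h
    obtain ⟨g1, g2, g3⟩ := hE _ _ _ h
    constructor
    · have h1 : (a, b, b + 1) ∈ E := hz _ _ _ _ h (by omega) (by omega)
      refine lt_of_lt_of_le (hαle _ _ _ h1) ?_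
      simp only [hMdef]
      exact le_sup (f := α) (mem_range.2 (by omega))
    · simp only [hMdef]
      refine Finset.sup_le fun d' hd' => ?_
      rw [mem_range] at hd'
      rcases le_or_gt d' b with h1 | h1
      · exact le_trans (hαd d') h1
      · have k1 : (a, b, d') ∈ E := hz _ _ _ d' h h1 (by omega)
        simp only [hα]
        refine Finset.sup_le ?_
        rintro ⟨a', c, d''⟩ h2
        rw [mem_filter] at h2
        obtain ⟨h2, h3⟩ := h2
        simp only at h3 ⊢
        subst h3
        by_contra hcon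
        obtain ⟨r1, r2, r3⟩ := hE _ _ _ h2
        have k2 := hx _ _ _ b h2 (by omega)
        have k3 := hx _ _ _ a k2 (by omega)
        have k4 := hz _ _ _ c k1 (by omega) (by omega)
        exact hK a b c d'' k4 k1 k3 k2
  have hfin := six_bound hE M hMm hMx hmain
  rw [val_six]
  have : 0 ≤ ε * (n : ℝ) ^ 3 := by positivity
  nlinarith

end Pool.Agent.H86.MT
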